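import Pool.Agent.R409.ED.Law

/-!
# The limit law
-/

set_option autoImplicit false

namespace Pool.Agent.R409.ED

open MeasureTheory Filter Topology
open Pool.Agent.TH339.MP
open HB (lin continuous_lin)
open scoped ENNReal ComplexConjugate

/-- the primes up to `Y` -/
abbrev PY (Y : ℕ) : Type := {p : Nat.Primes // (p : ℕ) ≤ Y}

noncomputable instance (Y : ℕ) : Fintype (PY Y) := (primes_fin Y).fintype

noncomputable instance (Y : ℕ) : DecidableEq (PY Y) := Classical.decEq _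

/-- the frequencies -/
noncomputable def lY (Y : ℕ) (p : PY Y) : ℝ := -(Real.log (p.1 : ℕ) / (2 * Real.pi))

lemma lY_indep (Y : ℕ) (m : PY Y → ℤ) (h : ∑ p, m p * lY Y p = 0) : m = 0 := by
  refine HB.log_indep (fun p : PY Y => (p.1 : ℕ)) (fun p => p.1.2)
    (fun p q hpq => Subtype.ext (Subtype.ext hpq)) m ?_
  have h1 : ∑ p, m p * lY Y p = -(1 / (2 * Real.pi)) * ∑ p : PY Y, m p * Real.log (p.1 : ℕ) := by
    rw [Finset.mul_sum]
    refine Finset.sum_congr rfl fun p _ => ?_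
    unfold lY
    ring
  rw [h1] at h
  rcases mul_eq_zero.1 h with h2 | h2
  · exfalso
    have : 0 < 1 / (2 * Real.pi) := by positivity
    linarith
  · exact h2

/-- the local function: the logarithm of the Euler factor at `p` on the unit circle -/
noncomputable def hl (b : PP → ℂ) (p : Nat.Primes) (θ : UnitAddCircle) : ℂ :=
  ∑' k : ℕ, (b (p, k) * (wt 1 (p, k) : ℂ)) * fourier ((k : ℤ) + 1) θ

variable {b : PP → ℂ} {M : ℝ}

lemma hl_term (hb : ∀ x, ‖b x‖ ≤ M / (x.2 + 1 : ℕ)) (p : Nat.Primes) (k : ℕ) (θ : UnitAddCircle) :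
    ‖(b (p, k) * (wt 1 (p, k) : ℂ)) * fourier ((k : ℤ) + 1) θ‖ ≤ M * (1 / 2 : ℝ) ^ k := by
  rw [norm_mul, norm_mul, Complex.norm_real, Real.norm_of_nonneg (wt_nonneg 1 _)]
  have h1 : ‖(fourier ((k : ℤ) + 1) θ : ℂ)‖ = 1 := by
    rw [fourier_apply]
    exact Circle.norm_coe _
  rw [h1, mul_one]
  exact mul_le_mul (norm_b_le hb _) (wt_le_half _) (wt_nonneg 1 _) (M_nonneg hb)

lemma half_summable (M : ℝ) : Summable fun k : ℕ => M * (1 / 2 : ℝ) ^ k :=
  (summable_geometric_of_lt_one (by norm_num) (by norm_num)).mul_left M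

lemma continuous_hl (hb : ∀ x, ‖b x‖ ≤ M / (x.2 + 1 : ℕ)) (p : Nat.Primes) : Continuous (hl b p) := by
  unfold hl
  refine continuous_tsum (fun k => ?_) (half_summable M) fun k θ => hl_term hb p k θ
  exact continuous_const.mul (map_continuous _)

/-- the logarithm of the truncated Euler product on the torus -/
noncomputable def SY (b : PP → ℂ) (Y : ℕ) (θ : UnitAddTorus (PY Y)) : ℂ := ∑ p, hl b p.1 (θ p)

lemma continuous_SY (hb : ∀ x, ‖b x‖ ≤ M / (x.2 + 1 : ℕ)) (Y : ℕ) : Continuous (SY b Y) := by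
  unfold SY
  exact continuous_finsetSum _ fun p _ => (continuous_hl hb p.1).comp (continuous_apply p)

lemma fourier_lin (Y : ℕ) (t : ℝ) (p : PY Y) (k : ℕ) :
    (fourier ((k : ℤ) + 1) (lin (lY Y) t p) : ℂ) = ee (fr (p.1, k)) t := by
  unfold HB.lin
  rw [fourier_coe_apply]
  unfold ee fr lY
  congr 1
  have hpi : (Real.pi : ℂ) ≠ 0 := by exact_mod_cast Real.pi_pos.ne'
  push_cast
  field_simp

lemma SY_lin (hb : ∀ x, ‖b x‖ ≤ M / (x.2 + 1 : ℕ)) (Y : ℕ) (t : ℝ) :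
    SY b Y (lin (lY Y) t) = QY b Y t := by
  classical
  have hs := summable_et hb Y t
  unfold QY
  rw [hs.tsum_prod]
  have h1 : ∀ p : Nat.Primes, ¬ (p : ℕ) ≤ Y → ∑' k : ℕ, et (bY b Y) t (p, k) = 0 := by
    intro p hp
    have : ∀ k : ℕ, et (bY b Y) t (p, k) = 0 := by
      intro k
      unfold et bY
      rw [if_neg hp, zero_mul, zero_mul]
    simp_rw [this]
    exact tsum_zero
  rw [tsum_eq_sum (s := (primes_fin Y).toFinset) (fun p hp => h1 p fun h => hp (by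
    rw [Set.Finite.mem_toFinset]; exact h))]
  have h2 : ∑ p ∈ (primes_fin Y).toFinset, ∑' k : ℕ, et (bY b Y) t (p, k) =
      ∑ p : PY Y, ∑' k : ℕ, et (bY b Y) t (p.1, k) :=
    Finset.sum_subtype _ (fun p => by rw [Set.Finite.mem_toFinset]; rfl)
      (fun p => ∑' k : ℕ, et (bY b Y) t (p, k))
  rw [h2]
  unfold SY
  refine Finset.sum_congr rfl fun p _ => ?_
  unfold hl
  refine tsum_congr fun k => ?_
  rw [fourier_lin]
  unfold et bY
  rw [if_pos p.2]

/-- the law of the truncated random Euler product -/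
noncomputable def muY (hb : ∀ x, ‖b x‖ ≤ M / (x.2 + 1 : ℕ)) (Y : ℕ) : ProbabilityMeasure ℂ :=
  ⟨Measure.map (SY b Y) volume, Measure.isProbabilityMeasure_map (continuous_SY hb Y).aemeasurable⟩

lemma muY_integral (hb : ∀ x, ‖b x‖ ≤ M / (x.2 + 1 : ℕ)) (Y : ℕ) {E : Type*}
    [NormedAddCommGroup E] [NormedSpace ℝ E] [SecondCountableTopology E]
    {f : ℂ → E} (hf : Continuous f) : ∫ z, f z ∂(muY hb Y : Measure ℂ) = ∫ θ, f (SY b Y θ) := by
  show ∫ z, f z ∂(Measure.map (SY b Y) volume) = _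
  rw [integral_map (continuous_SY hb Y).aemeasurable hf.aestronglyMeasurable]

/-- the real mean over an interval -/
noncomputable def rav (g : ℝ → ℝ) (x : ℝ × ℝ) : ℝ := x.2⁻¹ * ∫ t in x.1..(x.1 + x.2), g t

lemma rav_wav (g : ℝ → ℝ) (x : ℝ × ℝ) : rav g x = (wav (fun t => (g t : ℂ)) x).re := by
  unfold rav wav
  rw [intervalIntegral.integral_ofReal, ← Complex.ofReal_inv, ← Complex.ofReal_mul, Complex.ofReal_re]

/-- the means of a continuous function of the truncated Euler product -/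
theorem rav_tendsto (hb : ∀ x, ‖b x‖ ≤ M / (x.2 + 1 : ℕ)) (Y : ℕ) {φ : ℂ → ℝ} (hφ : Continuous φ) :
    Tendsto (rav fun t => φ (QY b Y t)) WF (𝓝 (∫ z, φ z ∂(muY hb Y : Measure ℂ))) := by
  have h1 := kw (lY Y) (lY_indep Y) ⟨fun θ => ((φ (SY b Y θ) : ℝ) : ℂ),
    Complex.continuous_ofReal.comp (hφ.comp (continuous_SY hb Y))⟩
  have h2 := (Complex.continuous_re.tendsto _).comp h1
  have h3 : (∫ θ, ((φ (SY b Y θ) : ℝ) : ℂ)).re = ∫ z, φ z ∂(muY hb Y : Measure ℂ) := by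
    rw [muY_integral hb Y hφ, integral_complex_ofReal, Complex.ofReal_re]
  simp only [ContinuousMap.coe_mk] at h2
  rw [h3] at h2
  refine h2.congr fun x => ?_
  rw [rav_wav]
  simp only [Function.comp_apply, SY_lin hb]

lemma abs_diff (hb : ∀ x, ‖b x‖ ≤ M / (x.2 + 1 : ℕ)) {φ : ℂ → ℝ} {L : NNReal}
    (hφ : LipschitzWith L φ) {C : ℝ} (hC : ∀ z w, dist (φ z) (φ w) ≤ C) {η : ℝ} (hη : 0 ≤ η) {Y : ℕ}
    (h : ∀ a T : ℝ, 1 ≤ T → ∫⁻ u in Set.Icc a (a + T), ENNReal.ofReal ‖bl b u - QY b Y u‖ ≤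
      ENNReal.ofReal (2 * η * T)) {x : ℝ × ℝ} (hx : 1 ≤ x.2) :
    |(∫ z, φ z ∂(law hb x : Measure ℂ)) - rav (fun t => φ (QY b Y t)) x| ≤ L * (2 * η) := by
  have hlen : len x = x.2 := max_eq_left hx
  have h0 : 0 < x.2 := by linarith
  rw [law_integral hb x hφ.continuous, hlen, smul_eq_mul]
  unfold rav
  rw [intervalIntegral.integral_of_le (by linarith), ← mul_sub]
  have hbd : ∀ z, ‖φ z‖ ≤ |φ 0| + C := by
    intro z
    have := hC z 0
    rw [Real.dist_eq] at this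
    rw [Real.norm_eq_abs]
    have h2 := abs_sub_abs_le_abs_sub (φ z) (φ 0)
    linarith
  have hm1 : AEStronglyMeasurable (fun u => φ (bl b u)) (volume.restrict (Set.Ioc x.1 (x.1 + x.2))) :=
    (hφ.continuous.measurable.comp_aemeasurable (boundary hb).1.restrict).aestronglyMeasurable
  have hi1 : IntegrableOn (fun u => φ (bl b u)) (Set.Ioc x.1 (x.1 + x.2)) :=
    Integrable.mono' (g := fun _ => |φ 0| + C) (integrableOn_const (by simp)) hm1
      (Eventually.of_forall fun u => hbd _)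
  have hi2 : IntegrableOn (fun u => φ (QY b Y u)) (Set.Ioc x.1 (x.1 + x.2)) :=
    ((hφ.continuous.comp (continuous_QY hb Y)).continuousOn.integrableOn_compact
      isCompact_Icc).mono_set Set.Ioc_subset_Icc_self
  rw [← integral_sub hi1 hi2, abs_mul, abs_of_pos (inv_pos.2 h0)]
  have h1 : ENNReal.ofReal |∫ u in Set.Ioc x.1 (x.1 + x.2), (φ (bl b u) - φ (QY b Y u))| ≤
      ENNReal.ofReal (L * (2 * η * x.2)) := by
    calc ENNReal.ofReal |∫ u in Set.Ioc x.1 (x.1 + x.2), (φ (bl b u) - φ (QY b Y u))|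
        ≤ ∫⁻ u in Set.Ioc x.1 (x.1 + x.2), ENNReal.ofReal ‖φ (bl b u) - φ (QY b Y u)‖ := by
          have := enorm_integral_le_lintegral_enorm (μ := volume.restrict (Set.Ioc x.1 (x.1 + x.2)))
            (fun u => φ (bl b u) - φ (QY b Y u))
          simpa [← ofReal_norm] using this
      _ ≤ ∫⁻ u in Set.Ioc x.1 (x.1 + x.2), ENNReal.ofReal L * ENNReal.ofReal ‖bl b u - QY b Y u‖ := by
          refine lintegral_mono fun u => ?_
          rw [← ENNReal.ofReal_mul L.coe_nonneg]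
          refine ENNReal.ofReal_le_ofReal ?_
          have := hφ.dist_le_mul (bl b u) (QY b Y u)
          rwa [Real.dist_eq, dist_eq_norm] at this
      _ = ENNReal.ofReal L * ∫⁻ u in Set.Ioc x.1 (x.1 + x.2), ENNReal.ofReal ‖bl b u - QY b Y u‖ :=
          lintegral_const_mul' _ _ ENNReal.ofReal_ne_top
      _ ≤ ENNReal.ofReal L * ENNReal.ofReal (2 * η * x.2) := by
          gcongr
          exact (lintegral_mono_set Set.Ioc_subset_Icc_self).trans (h _ _ hx)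
      _ = _ := by rw [← ENNReal.ofReal_mul L.coe_nonneg]
  have h2 := (ENNReal.ofReal_le_ofReal_iff (by
    have := L.coe_nonneg
    positivity)).1 h1
  calc x.2⁻¹ * |∫ u in Set.Ioc x.1 (x.1 + x.2), (φ (bl b u) - φ (QY b Y u))|
      ≤ x.2⁻¹ * (L * (2 * η * x.2)) := by gcongr
    _ = _ := by field_simp

/-- **The limit law.** -/
theorem exists_lim (hb : ∀ x, ‖b x‖ ≤ M / (x.2 + 1 : ℕ)) : ∃ μ : ProbabilityMeasure ℂ,
    Tendsto (law hb) WF (𝓝 μ) ∧ Tendsto (muY hb) atTop (𝓝 μ) := by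
  have hc : IsCompact (closure (Set.range (law hb))) := isCompact_closure_of_isTightMeasureSet (tight hb)
  obtain ⟨μ, -, hμ⟩ := hc.ultrafilter_le_nhds ((Ultrafilter.of WF).map (law hb)) (by
    refine le_principal_iff.2 ?_
    rw [Ultrafilter.coe_map]
    exact Filter.mem_of_superset (range_mem_map) subset_closure)
  have hμ' : Tendsto (law hb) (Ultrafilter.of WF) (𝓝 μ) := hμ
  rw [ProbabilityMeasure.tendsto_iff_forall_integral_tendsto] at hμ'
  -- the limits of the integrals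
  have key : ∀ φ : ℂ → ℝ, (∃ C : ℝ, ∀ x y, dist (φ x) (φ y) ≤ C) → (∃ L, LipschitzWith L φ) →
      Tendsto (fun x => ∫ z, φ z ∂(law hb x : Measure ℂ)) WF (𝓝 (∫ z, φ z ∂(μ : Measure ℂ))) ∧
      Tendsto (fun Y => ∫ z, φ z ∂(muY hb Y : Measure ℂ)) atTop (𝓝 (∫ z, φ z ∂(μ : Measure ℂ))) := by
    rintro φ ⟨C, hC⟩ ⟨L, hL⟩
    have happ : ∀ ε : ℝ, 0 < ε → ∃ Y0 : ℕ, ∀ Y ≥ Y0, ∀ x : ℝ × ℝ, 1 ≤ x.2 →
        |(∫ z, φ z ∂(law hb x : Measure ℂ)) - rav (fun t => φ (QY b Y t)) x| ≤ ε := by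
      intro ε hε
      have hL0 : (0 : ℝ) ≤ L := L.2
      obtain ⟨Y0, hY0⟩ := dist1 hb (η := ε / (2 * (L + 1))) (by positivity)
      refine ⟨Y0, fun Y hY x hx => ?_⟩
      refine (abs_diff hb hL hC (by positivity) (hY0 Y hY) hx).trans ?_
      have : (L : ℝ) * (2 * (ε / (2 * (L + 1)))) = L / (L + 1) * ε := by field_simp
      rw [this]
      have h1 : (L : ℝ) / (L + 1) ≤ 1 := by
        rw [div_le_one (by positivity)]
        linarith
      nlinarith
    have h1x : ∀ᶠ x : ℝ × ℝ in WF, 1 ≤ x.2 := ev_of 1 fun a T hT => hT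
    -- the difference of the limits
    have hdiff : ∀ ε : ℝ, 0 < ε → ∃ Y0 : ℕ, ∀ Y ≥ Y0, ∀ᶠ x : ℝ × ℝ in WF,
        |(∫ z, φ z ∂(law hb x : Measure ℂ)) - ∫ z, φ z ∂(muY hb Y : Measure ℂ)| < ε := by
      intro ε hε
      obtain ⟨Y0, hY0⟩ := happ (ε / 2) (by positivity)
      refine ⟨Y0, fun Y hY => ?_⟩
      have h2 := Metric.tendsto_nhds.1 (rav_tendsto hb Y hL.continuous) (ε / 2) (by positivity)
      filter_upwards [h1x, h2] with x hx h3
      have h4 := hY0 Y hY x hx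
      rw [Real.dist_eq] at h3
      have h5 := abs_sub_le (∫ z, φ z ∂(law hb x : Measure ℂ)) (rav (fun t => φ (QY b Y t)) x)
        (∫ z, φ z ∂(muY hb Y : Measure ℂ))
      linarith
    have hcauchy : ∃ l : ℝ, Tendsto (fun Y => ∫ z, φ z ∂(muY hb Y : Measure ℂ)) atTop (𝓝 l) := by
      apply cauchySeq_tendsto_of_complete
      rw [Metric.cauchySeq_iff]
      intro ε hε
      obtain ⟨Y0, hY0⟩ := hdiff (ε / 2) (by positivity)
      refine ⟨Y0, fun Y hY Y' hY' => ?_⟩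
      obtain ⟨x, hx, hx'⟩ := ((hY0 Y hY).and (hY0 Y' hY')).exists
      rw [Real.dist_eq]
      have h5 := abs_sub_le (∫ z, φ z ∂(muY hb Y : Measure ℂ)) (∫ z, φ z ∂(law hb x : Measure ℂ))
        (∫ z, φ z ∂(muY hb Y' : Measure ℂ))
      rw [abs_sub_comm] at hx
      linarith
    obtain ⟨l, hl⟩ := hcauchy
    have hlim : Tendsto (fun x => ∫ z, φ z ∂(law hb x : Measure ℂ)) WF (𝓝 l) := by
      rw [Metric.tendsto_nhds]
      intro ε hε
      obtain ⟨Y0, hY0⟩ := hdiff (ε / 2) (by positivity)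
      have h2 := Metric.tendsto_nhds.1 hl (ε / 2) (by positivity)
      obtain ⟨Y, hY, h3⟩ := ((eventually_ge_atTop Y0).and h2).exists
      filter_upwards [hY0 Y hY] with x hx
      rw [Real.dist_eq] at h3 ⊢
      have h5 := abs_sub_le (∫ z, φ z ∂(law hb x : Measure ℂ)) (∫ z, φ z ∂(muY hb Y : Measure ℂ)) l
      linarith
    have h3 := hμ' (BoundedContinuousFunction.mkOfBound ⟨φ, hL.continuous⟩ C hC)
    have h4 : Tendsto (fun x => ∫ z, φ z ∂(law hb x : Measure ℂ)) (Ultrafilter.of WF) (𝓝 l) :=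
      hlim.mono_left (Ultrafilter.of_le _)
    have h5 : l = ∫ z, φ z ∂(μ : Measure ℂ) := tendsto_nhds_unique h4 h3
    rw [← h5]
    exact ⟨hlim, hl⟩
  refine ⟨μ, ?_, ?_⟩
  · rw [tendsto_iff_forall_lipschitz_integral_tendsto]
    exact fun φ h1 h2 => (key φ h1 h2).1
  · rw [tendsto_iff_forall_lipschitz_integral_tendsto]
    exact fun φ h1 h2 => (key φ h1 h2).2

end Pool.Agent.R409.ED
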