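import Pool.Agent.R409.ED.Per

/-!
# The limit law has no atoms
-/

set_option autoImplicit false

namespace Pool.Agent.R409.ED

open MeasureTheory Filter Topology NumberField IsDedekindDomain
open Pool.Agent.TH339.MP
open Pool.Agent.TH958.BV (edgePoint)
open Pool.Agent.R409.EV (nal bT bT_bound norm_nal nal_cpow edge_sub)
open HB (lin continuous_lin)
open scoped ENNReal ComplexConjugate

variable {b : PP → ℂ} {M : ℝ}

/-- the Euler product without the factor at `p` -/
noncomputable def bO (b : PP → ℂ) (p : Nat.Primes) (x : PP) : ℂ := if x.1 = p then 0 else b x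

lemma bO_bound (hb : ∀ x, ‖b x‖ ≤ M / (x.2 + 1 : ℕ)) (p : Nat.Primes) (x : PP) :
    ‖bO b p x‖ ≤ M / (x.2 + 1 : ℕ) := by
  unfold bO
  split_ifs
  · rw [norm_zero]
    exact div_nonneg (M_nonneg hb) (Nat.cast_nonneg _)
  · exact hb x

lemma pmean_self (c₁ c₂ : ℂ) (p : Nat.Primes) : pmean (bO b p) c₁ c₂ p = 1 := by
  have h : ∀ θ : UnitAddCircle, hl (bO b p) p θ = 0 := by
    intro θ
    unfold hl bO
    simp
  unfold pmean
  simp_rw [h]
  unfold EE
  simp [measureReal_def]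

lemma pmean_other (c₁ c₂ : ℂ) {p q : Nat.Primes} (h : q ≠ p) :
    pmean (bO b p) c₁ c₂ q = pmean b c₁ c₂ q := by
  have h : ∀ θ : UnitAddCircle, hl (bO b p) q θ = hl b q θ := by
    intro θ
    unfold hl bO
    simp [h]
  unfold pmean
  simp_rw [h]

lemma prod_split (c₁ c₂ : ℂ) (p : Nat.Primes) {Y : ℕ} (hY : (p : ℕ) ≤ Y) :
    ∏ q : PY Y, pmean b c₁ c₂ q.1 = pmean b c₁ c₂ p * ∏ q : PY Y, pmean (bO b p) c₁ c₂ q.1 := by
  rw [← Finset.mul_prod_erase Finset.univ (fun q : PY Y => pmean b c₁ c₂ q.1)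
    (Finset.mem_univ (⟨p, hY⟩ : PY Y)), ← Finset.mul_prod_erase Finset.univ
    (fun q : PY Y => pmean (bO b p) c₁ c₂ q.1) (Finset.mem_univ (⟨p, hY⟩ : PY Y))]
  simp only
  rw [pmean_self, one_mul]
  congr 1
  refine Finset.prod_congr rfl fun q hq => ?_
  have hne : q.1 ≠ p := fun h => (Finset.mem_erase.1 hq).1 (Subtype.ext h)
  rw [pmean_other _ _ hne]

/-- the law of the logarithm of the Euler factor at `p` -/
noncomputable def lawp (b : PP → ℂ) (p : Nat.Primes) : Measure ℂ := Measure.map (hl b p) volume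

lemma charFun_eq (μ : Measure ℂ) (w : ℂ) : charFun μ w =
    ∫ z, Complex.exp ((Complex.I * conj w / 2) * z + (Complex.I * w / 2) * conj z) ∂μ := by
  rw [charFun_apply]
  refine integral_congr_ae (Eventually.of_forall fun z => ?_)
  simp only
  congr 1
  rw [Complex.inner]
  apply Complex.ext
  · simp [Complex.mul_re, Complex.mul_im]
    ring
  · simp [Complex.mul_re, Complex.mul_im]
    ring

lemma c_zero (w : ℂ) : ‖Complex.I * conj w / 2 + conj (Complex.I * w / 2)‖ = 0 := by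
  rw [norm_eq_zero]
  simp only [map_div₀, map_mul, Complex.conj_I, Complex.conj_ofNat]
  ring

lemma circle_null (x : UnitAddCircle) : volume ({x} : Set UnitAddCircle) = 0 := by
  have h1 : ({x} : Set UnitAddCircle) ⊆ Metric.closedBall x 0 := by
    intro y hy
    rw [Set.mem_singleton_iff] at hy
    rw [hy]
    exact Metric.mem_closedBall_self le_rfl
  refine measure_mono_null h1 ?_
  rw [AddCircle.volume_closedBall]
  simp

lemma finite_null {s : Set UnitAddCircle} (hs : s.Finite) : volume s = 0 := by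
  rw [← Set.biUnion_of_singleton s]
  exact (measure_biUnion_null_iff hs.countable).2 fun x _ => circle_null x

/-- a measure with the product formula has no atoms, if one Euler factor has no atoms -/
theorem no_atoms (hb : ∀ x, ‖b x‖ ≤ M / (x.2 + 1 : ℕ)) (p : Nat.Primes)
    (hp : ∀ w : ℂ, {θ | hl b p θ = w}.Finite) (μ : Measure ℂ) [IsProbabilityMeasure μ]
    (hμ : ∀ c₁ c₂ : ℂ, ‖c₁ + conj c₂‖ * M < 1 →
      Tendsto (fun Y : ℕ => ∏ p : PY Y, pmean b c₁ c₂ p.1) atTop
        (𝓝 (∫ z, Complex.exp (c₁ * z + c₂ * conj z) ∂μ))) (w : ℂ) : μ {w} = 0 := by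
  obtain ⟨ν, -, hν⟩ := main (bO_bound hb p)
  have hlc : Continuous (hl b p) := continuous_hl hb p
  have hprob : IsProbabilityMeasure (lawp b p) :=
    Measure.isProbabilityMeasure_map hlc.aemeasurable
  have hconv : μ = Measure.conv (ν : Measure ℂ) (lawp b p) := by
    refine Measure.ext_of_charFun ?_
    funext t
    rw [charFun_conv, charFun_eq, charFun_eq (ν : Measure ℂ), charFun_eq (lawp b p)]
    have h0 := c_zero t
    have h1 := hμ (Complex.I * conj t / 2) (Complex.I * t / 2) (by rw [h0, zero_mul]; exact one_pos)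
    have h2 := hν (Complex.I * conj t / 2) (Complex.I * t / 2) (by rw [h0, zero_mul]; exact one_pos)
    have h3 := h2.const_mul (pmean b (Complex.I * conj t / 2) (Complex.I * t / 2) p)
    have h4 := tendsto_nhds_unique (h1.congr' (by
      filter_upwards [eventually_ge_atTop (p : ℕ)] with Y hY
      exact prod_split _ _ p hY)) h3
    rw [h4, mul_comm]
    congr 1
    unfold lawp
    rw [integral_map hlc.aemeasurable (by fun_prop)]
    rfl
  rw [hconv]
  unfold Measure.conv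
  rw [Measure.map_apply (by fun_prop) (measurableSet_singleton w), Measure.measure_prod_null
    ((measurableSet_singleton w).preimage (by fun_prop))]
  refine Eventually.of_forall fun x => ?_
  show (lawp b p) (Prod.mk x ⁻¹' ((fun x : ℂ × ℂ => x.1 + x.2) ⁻¹' {w})) = 0
  have h5 : Prod.mk x ⁻¹' ((fun x : ℂ × ℂ => x.1 + x.2) ⁻¹' {w}) = {w - x} := by
    ext y
    simp only [Set.mem_preimage, Set.mem_singleton_iff]
    constructor
    · intro h
      rw [← h]
      ring
    · intro h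
      rw [h]
      ring
  rw [h5]
  unfold lawp
  rw [Measure.map_apply hlc.measurable (measurableSet_singleton _)]
  exact finite_null (hp (w - x))

variable {K : Type} [Field K] [NumberField K] {i N : ℕ}
  {α : HeightOneSpectrum (𝓞 K) → Fin N → ℂ}

open Polynomial in
/-- the Euler factor at `p` as a polynomial -/
noncomputable def Pp (i : ℕ) (α : HeightOneSpectrum (𝓞 K) → Fin N → ℂ) (p : Nat.Primes) : ℂ[X] :=
  ∏ v ∈ (Sp p : Finset (HeightOneSpectrum (𝓞 K))), ∏ j, (1 - C (nal i α v j) * X ^ dg v)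

open Polynomial in
lemma fac_ne (a : ℂ) {d : ℕ} (hd : 0 < d) : (1 - C a * X ^ d : ℂ[X]) ≠ 0 := by
  intro h
  have := congrArg (fun P : ℂ[X] => P.eval 0) h
  simp [hd.ne'] at this

open Polynomial in
lemma fac_deg {a : ℂ} (ha : a ≠ 0) {d : ℕ} (hd : 0 < d) : (1 - C a * X ^ d : ℂ[X]).natDegree = d := by
  have h1 : (C a * X ^ d : ℂ[X]).natDegree = d := natDegree_C_mul_X_pow d a ha
  rw [natDegree_sub_eq_right_of_natDegree_lt (by rw [h1, natDegree_one]; exact hd), h1]

open Polynomial in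
lemma Pp_deg {p : Nat.Primes} {v : HeightOneSpectrum (𝓞 K)} (hv : v ∈ (Sp p : Finset _)) {j : Fin N}
    (hj : nal i α v j ≠ 0) : 0 < (Pp i α p).natDegree := by
  classical
  have hne : ∀ (v : HeightOneSpectrum (𝓞 K)) (j : Fin N),
      (1 - C (nal i α v j) * X ^ dg v : ℂ[X]) ≠ 0 := fun v j => fac_ne _ (dg_pos v)
  unfold Pp
  rw [natDegree_prod _ _ fun v _ => Finset.prod_ne_zero_iff.2 fun j _ => hne v j]
  refine lt_of_lt_of_le ?_ (Finset.single_le_sum (f := fun v : HeightOneSpectrum (𝓞 K) =>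
    (∏ j, (1 - C (nal i α v j) * X ^ dg v : ℂ[X])).natDegree) (fun _ _ => Nat.zero_le _) hv)
  rw [natDegree_prod _ _ fun j _ => hne v j]
  refine lt_of_lt_of_le ?_ (Finset.single_le_sum (f := fun j : Fin N =>
    (1 - C (nal i α v j) * X ^ dg v : ℂ[X]).natDegree) (fun _ _ => Nat.zero_le _) (Finset.mem_univ j))
  rw [fac_deg hj (dg_pos v)]
  exact dg_pos v

lemma exp_hl (h : ∀ v j, ‖α v j‖ ≤ (Ideal.absNorm v.asIdeal : ℝ) ^ ((i : ℝ) / 2))
    (p : Nat.Primes) (θ : UnitAddCircle) :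
    Complex.exp (-hl (bT i α) p θ) =
      (Pp i α p).eval (((p : ℕ) : ℂ)⁻¹ * (AddCircle.toCircle θ : ℂ)) := by
  have hlog : 0 < Real.log (p : ℕ) := Real.log_pos (by exact_mod_cast p.2.one_lt)
  have hp0 : ((p : ℕ) : ℂ) ≠ 0 := by exact_mod_cast p.2.ne_zero
  obtain ⟨y, rfl⟩ := QuotientAddGroup.mk_surjective θ
  obtain ⟨τ, hτ⟩ : ∃ τ : ℝ, -(Real.log (p : ℕ) / (2 * Real.pi)) * τ = y := by
    refine ⟨-(2 * Real.pi / Real.log (p : ℕ)) * y, ?_⟩
    field_simp
  have h1 := hl_at h p τ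
  rw [hτ] at h1
  have h2 : hl (bT i α) p ((QuotientAddGroup.mk y : UnitAddCircle)) =
      ∑ v ∈ Sp p, lv (nal i α) v (1 + τ * Complex.I) := h1
  rw [h2, ← Finset.sum_neg_distrib, Complex.exp_sum]
  unfold Pp
  rw [Polynomial.eval_prod]
  refine Finset.prod_congr rfl fun v hv => ?_
  rw [mem_Sp] at hv
  rw [Polynomial.eval_prod]
  unfold lv
  rw [← Finset.sum_neg_distrib, Complex.exp_sum]
  refine Finset.prod_congr rfl fun j _ => ?_
  have h3 := norm_nm_cpow v (s := 1 + τ * Complex.I) (by simp)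
  have h4 := norm_nal h v j
  have h5 : (1 - nal i α v j * ((nm v : ℕ) : ℂ) ^ (-(1 + (τ : ℂ) * Complex.I))) ≠ 0 := by
    intro h6
    have h7 : ‖nal i α v j * ((nm v : ℕ) : ℂ) ^ (-(1 + (τ : ℂ) * Complex.I))‖ = 1 := by
      rw [← sub_eq_zero.1 h6, norm_one]
    rw [norm_mul] at h7
    have h8 := h3.2
    nlinarith [norm_nonneg (nal i α v j),
      norm_nonneg (((nm v : ℕ) : ℂ) ^ (-(1 + (τ : ℂ) * Complex.I)))]
  rw [neg_neg, Complex.exp_log h5, nm_cpow, hv]
  simp only [Polynomial.eval_sub, Polynomial.eval_one, Polynomial.eval_mul, Polynomial.eval_C,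
    Polynomial.eval_pow, Polynomial.eval_X]
  congr 3
  have h6 : (((p : ℕ) : ℂ)) ^ (-(1 + (τ : ℂ) * Complex.I)) = ((p : ℕ) : ℂ)⁻¹ *
      Complex.exp (-(Real.log (p : ℕ) * τ : ℝ) * Complex.I) := by
    rw [neg_add, Complex.cpow_add _ _ hp0, Complex.cpow_neg_one, Complex.cpow_def_of_ne_zero hp0,
      ← Complex.natCast_log]
    congr 2
    push_cast
    ring
  rw [h6]
  congr 1
  have h7 : (AddCircle.toCircle (QuotientAddGroup.mk y : UnitAddCircle) : ℂ) =
      fourier 1 ((y : ℝ) : UnitAddCircle) := by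
    rw [fourier_one]
  rw [h7, fourier_coe_apply, ← hτ]
  have hpi : (Real.pi : ℂ) ≠ 0 := by exact_mod_cast Real.pi_pos.ne'
  push_cast
  field_simp

lemma hl_finite (h : ∀ v j, ‖α v j‖ ≤ (Ideal.absNorm v.asIdeal : ℝ) ^ ((i : ℝ) / 2))
    {p : Nat.Primes} {v : HeightOneSpectrum (𝓞 K)} (hv : v ∈ (Sp p : Finset _)) {j : Fin N}
    (hj : nal i α v j ≠ 0) (w : ℂ) : {θ | hl (bT i α) p θ = w}.Finite := by
  have hp0 : ((p : ℕ) : ℂ) ≠ 0 := by exact_mod_cast p.2.ne_zero
  set Q : Polynomial ℂ := Pp i α p - Polynomial.C (Complex.exp (-w)) with hQ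
  have hdeg := Pp_deg hv hj
  have hQ0 : Q ≠ 0 := by
    intro h0
    have : (Pp i α p).natDegree = 0 := by
      rw [sub_eq_zero.1 h0, Polynomial.natDegree_C]
    omega
  have hinj : Function.Injective fun θ : UnitAddCircle =>
      ((p : ℕ) : ℂ)⁻¹ * (AddCircle.toCircle θ : ℂ) := by
    intro x y hxy
    exact AddCircle.injective_toCircle one_ne_zero (Circle.coe_injective
      (mul_left_cancel₀ (inv_ne_zero hp0) hxy))
  refine ((Q.roots.toFinset.finite_toSet).preimage hinj.injOn).subset fun θ hθ => ?_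
  have h1 := exp_hl h p θ
  rw [show hl (bT i α) p θ = w from hθ] at h1
  rw [Set.mem_preimage, Finset.mem_coe, Multiset.mem_toFinset, Polynomial.mem_roots hQ0]
  show Q.eval _ = 0
  rw [hQ, Polynomial.eval_sub, Polynomial.eval_C, ← h1, sub_self]

lemma exists_over (p : Nat.Primes) : ∃ v : HeightOneSpectrum (𝓞 K), ((p : ℕ) : 𝓞 K) ∈ v.asIdeal := by
  have hnu : ¬ IsUnit ((p : ℕ) : 𝓞 K) := by
    intro h
    have h1 := h.map (Algebra.norm ℤ)
    have h2 : Algebra.norm ℤ ((p : ℕ) : 𝓞 K) = ((p : ℕ) : ℤ) ^ Module.finrank ℤ (𝓞 K) := by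
      have h5 := Algebra.norm_algebraMap (S := 𝓞 K) ((p : ℕ) : ℤ)
      rw [← h5]
      congr 1
      simp
    rw [h2, isUnit_pow_iff (by rw [RingOfIntegers.rank]; exact Module.finrank_pos.ne')] at h1
    exact (Nat.prime_iff_prime_int.1 p.2).not_isUnit h1
  obtain ⟨Q, hQ, hpQ⟩ := exists_max_ideal_of_mem_nonunits (mem_nonunits_iff.2 hnu)
  refine ⟨⟨Q, hQ.isPrime, fun h0 => ?_⟩, hpQ⟩
  rw [h0, Ideal.mem_bot] at hpQ
  exact p.2.ne_zero (by exact_mod_cast hpQ)

lemma infinite_places (K : Type) [Field K] [NumberField K] : Infinite (HeightOneSpectrum (𝓞 K)) := by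
  choose f hf using fun p : Nat.Primes => exists_over (K := K) p
  refine Infinite.of_injective f fun p q hpq => ?_
  have h1 := (mem_Sp p (f p)).1 ((mem_iff p _).1 (hf p))
  have h2 := (mem_Sp q (f q)).1 ((mem_iff q _).1 (hf q))
  rw [← h1, ← h2, hpq]

end Pool.Agent.R409.ED
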