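import Pool.Agent.R409.ED.KW
import Pool.Agent.TH339.MP.U3

/-!
# Truncated Euler products and the boundary function
-/

set_option autoImplicit false

namespace Pool.Agent.R409.ED

open MeasureTheory Filter Topology
open Pool.Agent.TH339.MP
open scoped ENNReal

/-- the Euler product over the primes up to `Y` -/
noncomputable def bY (b : PP → ℂ) (Y : ℕ) (x : PP) : ℂ := if (x.1 : ℕ) ≤ Y then b x else 0

/-- the terms on the edge -/
noncomputable def et (b : PP → ℂ) (t : ℝ) (x : PP) : ℂ := (b x * (wt 1 x : ℂ)) * ee (fr x) t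

/-- the logarithm of the truncated Euler product on the edge -/
noncomputable def QY (b : PP → ℂ) (Y : ℕ) (t : ℝ) : ℂ := ∑' x, et (bY b Y) t x

variable {b : PP → ℂ} {M : ℝ}

lemma bY_bound (hb : ∀ x, ‖b x‖ ≤ M / (x.2 + 1 : ℕ)) (Y : ℕ) (x : PP) :
    ‖bY b Y x‖ ≤ M / (x.2 + 1 : ℕ) := by
  unfold bY
  split_ifs
  · exact hb x
  · rw [norm_zero]
    exact div_nonneg (M_nonneg hb) (Nat.cast_nonneg _)

lemma norm_et (b : PP → ℂ) (t : ℝ) (x : PP) : ‖et b t x‖ = ‖b x‖ * wt 1 x := by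
  unfold et
  rw [norm_mul, norm_mul, norm_ee, mul_one, Complex.norm_real, Real.norm_of_nonneg (wt_nonneg 1 x)]

lemma wt_le_half (x : PP) : wt 1 x ≤ (1 / 2 : ℝ) ^ x.2 := by
  unfold wt
  have h1 := rpow_neg_le_half x.1 (le_refl (1 : ℝ))
  have h2 : 0 ≤ (((x.1 : ℕ) : ℝ)) ^ (-1 : ℝ) := Real.rpow_nonneg (prime_pos _).le _
  calc ((((x.1 : ℕ) : ℝ)) ^ (-1 : ℝ)) ^ (x.2 + 1) ≤ (1 / 2 : ℝ) ^ (x.2 + 1) :=
        pow_le_pow_left₀ h2 h1 _
    _ ≤ (1 / 2 : ℝ) ^ x.2 := pow_le_pow_of_le_one (by norm_num) (by norm_num) (by omega)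

/-- a majorant -/
noncomputable def maj (M : ℝ) (Y : ℕ) (x : PP) : ℝ :=
  (if (x.1 : ℕ) ≤ Y then M else 0) * (1 / 2 : ℝ) ^ x.2

lemma primes_fin (Y : ℕ) : {p : Nat.Primes | (p : ℕ) ≤ Y}.Finite :=
  Set.Finite.preimage (f := fun p : Nat.Primes => (p : ℕ)) (fun _ _ _ _ h => Subtype.ext h)
    (Set.finite_Iic Y)

lemma summable_maj (hM : 0 ≤ M) (Y : ℕ) : Summable (maj M Y) := by
  have h3 : Summable fun k : ℕ => ((1 : ℝ) / 2) ^ k :=
    summable_geometric_of_lt_one (by norm_num) (by norm_num)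
  have h2 : Summable fun p : Nat.Primes => (if (p : ℕ) ≤ Y then M else 0) := by
    refine summable_of_hasFiniteSupport ((primes_fin Y).subset fun p hp => ?_)
    by_contra h
    exact hp (if_neg h)
  exact h2.mul_of_nonneg h3 (fun p => by simp only [Pi.zero_apply]; split_ifs <;> [exact hM; exact le_rfl])
    (fun k => by simp only [Pi.zero_apply]; positivity)

lemma norm_et_bY (hb : ∀ x, ‖b x‖ ≤ M / (x.2 + 1 : ℕ)) (Y : ℕ) (t : ℝ) (x : PP) :
    ‖et (bY b Y) t x‖ ≤ maj M Y x := by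
  have hM := M_nonneg hb
  rw [norm_et]
  unfold bY maj
  split_ifs with h
  · refine mul_le_mul (norm_b_le hb x) (wt_le_half x) (wt_nonneg 1 x) hM
  · rw [norm_zero, zero_mul, zero_mul]

lemma summable_et (hb : ∀ x, ‖b x‖ ≤ M / (x.2 + 1 : ℕ)) (Y : ℕ) (t : ℝ) :
    Summable (et (bY b Y) t) :=
  Summable.of_norm_bounded (summable_maj (M_nonneg hb) Y) (norm_et_bY hb Y t)

lemma continuous_QY (hb : ∀ x, ‖b x‖ ≤ M / (x.2 + 1 : ℕ)) (Y : ℕ) : Continuous (QY b Y) := by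
  unfold QY
  refine continuous_tsum (fun x => ?_) (summable_maj (M_nonneg hb) Y) fun x t => norm_et_bY hb Y t x
  unfold et
  exact continuous_const.mul (continuous_ee _)

lemma TX_tendsto : Tendsto TX atTop atTop := by
  refine tendsto_atTop_finset_of_monotone ?_ ?_
  · intro X Y hXY x hx
    rw [mem_TX] at hx ⊢
    exact hx.trans hXY
  · intro x
    exact ⟨qq x, (mem_TX _ _).2 le_rfl⟩

lemma PS_bY (hb : ∀ x, ‖b x‖ ≤ M / (x.2 + 1 : ℕ)) (Y : ℕ) (t : ℝ) :
    Tendsto (fun X => PS (bY b Y) X t) atTop (𝓝 (QY b Y t)) :=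
  (summable_et hb Y t).hasSum.comp TX_tendsto

/-- the truncated product is its own boundary function -/
lemma bl_bY (hb : ∀ x, ‖b x‖ ≤ M / (x.2 + 1 : ℕ)) (Y : ℕ) : ∀ᵐ t : ℝ, bl (bY b Y) t = QY b Y t := by
  filter_upwards [ae_notMem (bY_bound hb Y)] with t ht
  exact tendsto_nhds_unique (PS_tendsto (bY_bound hb Y) ht) (PS_bY hb Y t)

/-- the distance in the mean square -/
theorem dist_QY (hb : ∀ x, ‖b x‖ ≤ M / (x.2 + 1 : ℕ)) {Y : ℕ} (hY : 2 ≤ Y) (t : ℝ) :
    ∫⁻ u in Set.Icc t (t + 1), ENNReal.ofReal (‖bl b u - QY b Y u‖ ^ 2) ≤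
      ENNReal.ofReal (64800 * M ^ 2 / Real.log Y) := by
  classical
  have hM := M_nonneg hb
  have hstep : ∀ X : ℕ, ∫⁻ u in Set.Icc t (t + 1), ENNReal.ofReal (‖PS b X u - PS (bY b Y) X u‖ ^ 2) ≤
      ENNReal.ofReal (64800 * M ^ 2 / Real.log Y) := by
    intro X
    have h1 : ∀ u, PS b X u - PS (bY b Y) X u =
        ∑ x ∈ (TX X).filter (fun x => Y < (x.1 : ℕ)), (b x * (wt 1 x : ℂ)) * ee (fr x) u := by
      intro u
      unfold PS
      rw [← Finset.sum_sub_distrib, Finset.sum_filter]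
      refine Finset.sum_congr rfl fun x _ => ?_
      unfold bY
      split_ifs with h2 h3 h3
      · exact absurd h2 (by omega)
      · ring
      · ring
      · exact absurd h2 (by omega)
    have hc : Continuous fun u => ‖PS b X u - PS (bY b Y) X u‖ ^ 2 :=
      ((continuous_PS b X).sub (continuous_PS _ X)).norm.pow 2
    rw [← ofReal_integral_eq_lintegral_ofReal]
    · refine ENNReal.ofReal_le_ofReal ?_
      rw [integral_Icc_eq_integral_Ioc, ← intervalIntegral.integral_of_le (by linarith)]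
      simp_rw [h1]
      have hlg : ∀ x ∈ (TX X).filter (fun x => Y < (x.1 : ℕ)),
          max 1 ⌊Real.log Y⌋₊ ≤ Pool.Agent.W350.Edge.lg (qq x) := by
        intro x hx
        rw [Finset.mem_filter] at hx
        refine lg_ge hY (lt_of_lt_of_le hx.2 ?_)
        unfold qq
        exact Nat.le_self_pow (by omega) _
      refine (tail _ (le_max_left 1 _) hlg _ hM (fun x _ => norm_coef hb x) t).trans ?_
      have h0 : 0 < Real.log Y := Real.log_pos (by exact_mod_cast (by omega : 1 < Y))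
      have h2 := max_ge hY
      rw [div_le_div_iff₀ (by linarith) h0]
      nlinarith [sq_nonneg M]
    · exact hc.continuousOn.integrableOn_compact isCompact_Icc
    · exact Eventually.of_forall fun u => by positivity
  have h1 : ∫⁻ u in Set.Icc t (t + 1), ENNReal.ofReal (‖bl b u - QY b Y u‖ ^ 2) ≤
      ∫⁻ u in Set.Icc t (t + 1),
        liminf (fun X => ENNReal.ofReal (‖PS b X u - PS (bY b Y) X u‖ ^ 2)) atTop := by
    refine lintegral_mono_ae ?_
    filter_upwards [ae_restrict_of_ae (ae_notMem hb)] with u hu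
    have h2 : Tendsto (fun X => ENNReal.ofReal (‖PS b X u - PS (bY b Y) X u‖ ^ 2)) atTop
        (𝓝 (ENNReal.ofReal (‖bl b u - QY b Y u‖ ^ 2))) :=
      (ENNReal.continuous_ofReal.tendsto _).comp
        ((((PS_tendsto hb hu).sub (PS_bY hb Y u)).norm).pow 2)
    rw [h2.liminf_eq]
  refine h1.trans ((lintegral_liminf_le fun X => ?_).trans ?_)
  · exact (ENNReal.continuous_ofReal.comp
      (((continuous_PS b X).sub (continuous_PS _ X)).norm.pow 2)).measurable
  · exact liminf_le_of_frequently_le' (Eventually.frequently (Eventually.of_forall hstep))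

/-- covering an interval by shorter ones -/
lemma cover (f : ℝ → ℝ≥0∞) {h : ℝ} {B : ℝ≥0∞}
    (hB : ∀ t, ∫⁻ u in Set.Icc t (t + h), f u ≤ B) (n : ℕ) (a : ℝ) :
    ∫⁻ u in Set.Icc a (a + n * h), f u ≤ n * B := by
  induction n with
  | zero =>
    simp only [Nat.cast_zero, zero_mul, add_zero, Set.Icc_self, nonpos_iff_eq_zero]
    rw [Measure.restrict_singleton]
    simp
  | succ n ih =>
    have h1 : Set.Icc a (a + (n + 1 : ℕ) * h) ⊆
        Set.Icc a (a + n * h) ∪ Set.Icc (a + n * h) (a + n * h + h) := by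
      intro u hu
      rcases le_total u (a + n * h) with h2 | h2
      · exact Or.inl ⟨hu.1, h2⟩
      · refine Or.inr ⟨h2, ?_⟩
        have := hu.2
        push_cast at this
        linarith
    calc ∫⁻ u in Set.Icc a (a + (n + 1 : ℕ) * h), f u
        ≤ ∫⁻ u in Set.Icc a (a + n * h) ∪ Set.Icc (a + n * h) (a + n * h + h), f u :=
          lintegral_mono_set h1
      _ ≤ (∫⁻ u in Set.Icc a (a + n * h), f u) + ∫⁻ u in Set.Icc (a + n * h) (a + n * h + h), f u :=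
          lintegral_union_le _ _ _
      _ ≤ n * B + B := add_le_add ih (hB _)
      _ = (n + 1 : ℕ) * B := by
          push_cast
          ring

lemma cover' (f : ℝ → ℝ≥0∞) {h : ℝ} (hh : 0 < h) {B : ℝ} (hB0 : 0 ≤ B)
    (hB : ∀ t, ∫⁻ u in Set.Icc t (t + h), f u ≤ ENNReal.ofReal B) {a T : ℝ} (hT : 1 ≤ T) :
    ∫⁻ u in Set.Icc a (a + T), f u ≤ ENNReal.ofReal ((1 / h + 1) * B * T) := by
  set n := ⌈T / h⌉₊ with hn
  have h1 : T ≤ n * h := by
    rw [← div_le_iff₀ hh]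
    exact Nat.le_ceil _
  have h2 : (n : ℝ) ≤ (1 / h + 1) * T := by
    have h3 : (n : ℝ) < T / h + 1 := Nat.ceil_lt_add_one (by positivity)
    calc (n : ℝ) ≤ T / h + 1 := h3.le
      _ ≤ T / h + T := by linarith
      _ = _ := by ring
  calc ∫⁻ u in Set.Icc a (a + T), f u ≤ ∫⁻ u in Set.Icc a (a + n * h), f u :=
        lintegral_mono_set (Set.Icc_subset_Icc_right (by linarith))
    _ ≤ n * ENNReal.ofReal B := cover f hB n a
    _ = ENNReal.ofReal (n * B) := by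
        rw [ENNReal.ofReal_mul (Nat.cast_nonneg _), ENNReal.ofReal_natCast]
    _ ≤ _ := by
        refine ENNReal.ofReal_le_ofReal ?_
        calc (n : ℝ) * B ≤ (1 / h + 1) * T * B := mul_le_mul_of_nonneg_right h2 hB0
          _ = _ := by ring

lemma norm_FF_le (hb : ∀ x, ‖b x‖ ≤ M / (x.2 + 1 : ℕ)) {σ : ℝ} (hσ : 1 < σ) (t : ℝ) :
    ‖FF b ((σ : ℂ) + t * Complex.I)‖ ≤ M * ZZ σ := by
  have h1 : ∀ x, ‖tm b ((σ : ℂ) + t * Complex.I) x‖ ≤ M * (wt σ x / (x.2 + 1 : ℕ)) := by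
    intro x
    rw [norm_tm]
    have h2 : ((σ : ℂ) + t * Complex.I).re = σ := by simp
    rw [h2]
    calc ‖b x‖ * wt σ x ≤ M / (x.2 + 1 : ℕ) * wt σ x :=
          mul_le_mul_of_nonneg_right (hb x) (wt_nonneg _ _)
      _ = _ := by ring
  unfold FF ZZ
  rw [← tsum_mul_left]
  exact tsum_of_norm_bounded ((summable_wt hσ).mul_left M).hasSum h1

/-- the mean of an exponential -/
theorem exp_mean {c : ℂ} (hc : ‖c‖ * M < 1) : ∃ B : ℝ, 0 ≤ B ∧ ∀ b : PP → ℂ,
    (∀ x, ‖b x‖ ≤ M / (x.2 + 1 : ℕ)) → ∀ a T : ℝ, 1 ≤ T →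
      ∫⁻ u in Set.Icc a (a + T), ENNReal.ofReal ‖Complex.exp (c * bl b u)‖ ≤
        ENNReal.ofReal (B * T) := by
  have h1M : 0 < 1 - ‖c‖ * M := by linarith
  refine ⟨(1 / (1 / 2) + 1) * (Real.exp (‖c‖ * (M * ZZ (3 / 2))) * (500 / (1 - ‖c‖ * M))),
    by positivity, fun b hb a T hT => ?_⟩
  refine cover' _ (h := 1 / 2) (by norm_num) (by positivity) (fun t => ?_) hT
  have h1 := edge_upper hb (h := 1 / 2) (by norm_num) le_rfl (t + 1 / 4) c hc
  have e1 : t + 1 / 4 - 1 / 2 / 2 = t := by ring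
  have e2 : t + 1 / 4 + 1 / 2 / 2 = t + 1 / 2 := by ring
  rw [e1, e2] at h1
  set w := FF b (((1 + 1 / 2 : ℝ) : ℂ) + ((t + 1 / 4 : ℝ) : ℂ) * Complex.I) with hw
  have hwn : ‖w‖ ≤ M * ZZ (3 / 2) := by
    have := norm_FF_le hb (σ := 3 / 2) (by norm_num) (t + 1 / 4)
    rw [hw]
    convert this using 4
    norm_num
  have h2 : ∀ u, ENNReal.ofReal ‖Complex.exp (c * bl b u)‖ ≤
      ENNReal.ofReal (Real.exp (‖c‖ * (M * ZZ (3 / 2)))) *
        ENNReal.ofReal ‖Complex.exp (c * (bl b u - w))‖ := by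
    intro u
    rw [← ENNReal.ofReal_mul (Real.exp_pos _).le]
    refine ENNReal.ofReal_le_ofReal ?_
    have h3 : c * bl b u = c * w + c * (bl b u - w) := by ring
    rw [h3, Complex.exp_add, norm_mul]
    refine mul_le_mul_of_nonneg_right ?_ (norm_nonneg _)
    refine (Complex.norm_exp_le_exp_norm _).trans (Real.exp_le_exp.2 ?_)
    rw [norm_mul]
    exact mul_le_mul_of_nonneg_left hwn (norm_nonneg _)
  calc ∫⁻ u in Set.Icc t (t + 1 / 2), ENNReal.ofReal ‖Complex.exp (c * bl b u)‖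
      ≤ ∫⁻ u in Set.Icc t (t + 1 / 2), ENNReal.ofReal (Real.exp (‖c‖ * (M * ZZ (3 / 2)))) *
        ENNReal.ofReal ‖Complex.exp (c * (bl b u - w))‖ := lintegral_mono h2
    _ = ENNReal.ofReal (Real.exp (‖c‖ * (M * ZZ (3 / 2)))) *
        ∫⁻ u in Set.Icc t (t + 1 / 2), ENNReal.ofReal ‖Complex.exp (c * (bl b u - w))‖ :=
          lintegral_const_mul' _ _ ENNReal.ofReal_ne_top
    _ ≤ ENNReal.ofReal (Real.exp (‖c‖ * (M * ZZ (3 / 2)))) *
        ENNReal.ofReal (1000 * (1 / 2) / (1 - ‖c‖ * M)) := by gcongr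
    _ = _ := by
        rw [← ENNReal.ofReal_mul (Real.exp_pos _).le]
        congr 2
        norm_num

end Pool.Agent.R409.ED
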