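import Pool.Agent.Helper821.HB.Primes

/-!
# The theorem of Kronecker and Weyl, uniformly in all intervals of a given length
-/

set_option autoImplicit false

namespace Pool.Agent.R409.ED

open MeasureTheory Filter Topology
open HB (lin continuous_lin mFourier_lin integral_mFourier)

/-- the filter of the intervals `(a, a + T]`, `T → ∞`, uniformly in `a` -/
abbrev WF : Filter (ℝ × ℝ) := (⊤ : Filter ℝ) ×ˢ atTop

lemma ev_of {p : ℝ × ℝ → Prop} (T0 : ℝ) (h : ∀ a T : ℝ, T0 ≤ T → p (a, T)) : ∀ᶠ x in WF, p x := by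
  have h1 : ∀ᶠ x : ℝ × ℝ in WF, T0 ≤ x.2 := tendsto_snd.eventually (eventually_ge_atTop T0)
  filter_upwards [h1] with x hx using h x.1 x.2 hx

lemma of_ev {p : ℝ × ℝ → Prop} (h : ∀ᶠ x in WF, p x) : ∃ T0 : ℝ, ∀ a T : ℝ, T0 ≤ T → p (a, T) := by
  rw [eventually_prod_iff] at h
  obtain ⟨pa, hpa, pb, hpb, h1⟩ := h
  rw [eventually_top] at hpa
  obtain ⟨T0, hT0⟩ := eventually_atTop.1 hpb
  exact ⟨T0, fun a T hT => h1 (hpa a) (hT0 T hT)⟩

instance : NeBot WF := by
  unfold WF
  infer_instance

/-- the mean over an interval -/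
noncomputable def wav (g : ℝ → ℂ) (x : ℝ × ℝ) : ℂ := (x.2 : ℂ)⁻¹ * ∫ t in x.1..(x.1 + x.2), g t

lemma wav_const (c : ℂ) {x : ℝ × ℝ} (hx : 0 < x.2) : wav (fun _ => c) x = c := by
  unfold wav
  rw [intervalIntegral.integral_const]
  have h : (x.2 : ℂ) ≠ 0 := by exact_mod_cast hx.ne'
  simp only [add_sub_cancel_left, Complex.real_smul]
  field_simp

lemma wav_exp (s : ℝ) (hs : s ≠ 0) :
    Tendsto (wav (fun t : ℝ => Complex.exp ((s : ℂ) * Complex.I * t))) WF (𝓝 0) := by
  have h1 : ∀ᶠ x : ℝ × ℝ in WF, ‖wav (fun t : ℝ => Complex.exp ((s : ℂ) * Complex.I * t)) x‖ ≤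
      (2 / |s|) * x.2⁻¹ := by
    refine ev_of 1 fun a T hT => ?_
    unfold wav
    rw [integral_exp_mul_complex (mul_ne_zero (by exact_mod_cast hs) Complex.I_ne_zero)]
    have h0 : ‖(s : ℂ) * Complex.I‖ = |s| := by
      rw [norm_mul, Complex.norm_I, mul_one, Complex.norm_real, Real.norm_eq_abs]
    have hT0 : 0 < T := by linarith
    rw [norm_mul, norm_div, h0, norm_inv, Complex.norm_real, Real.norm_of_nonneg hT0.le]
    have e : ∀ y : ℝ, ‖Complex.exp ((s : ℂ) * Complex.I * y)‖ = 1 := by
      intro y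
      rw [show (s : ℂ) * Complex.I * y = ((s * y : ℝ) : ℂ) * Complex.I by push_cast; ring,
        Complex.norm_exp_ofReal_mul_I]
    have h2 : ‖Complex.exp ((s : ℂ) * Complex.I * ((a + T : ℝ) : ℂ)) -
        Complex.exp ((s : ℂ) * Complex.I * (a : ℂ))‖ ≤ 2 := by
      refine (norm_sub_le _ _).trans ?_
      rw [e, e]
      norm_num
    have hs' : 0 < |s| := abs_pos.2 hs
    rw [mul_comm]
    gcongr
  refine squeeze_zero_norm' h1 ?_
  have h3 : Tendsto (fun x : ℝ × ℝ => x.2⁻¹) WF (𝓝 0) := tendsto_inv_atTop_zero.comp tendsto_snd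
  have := h3.const_mul (2 / |s|)
  simpa using this

lemma norm_wav_le (g : ℝ → ℂ) (B : ℝ) (hB : ∀ t, ‖g t‖ ≤ B) {x : ℝ × ℝ} (hx : 0 < x.2) :
    ‖wav g x‖ ≤ B := by
  unfold wav
  rw [norm_mul, norm_inv, Complex.norm_real, Real.norm_of_nonneg hx.le]
  have h1 : ‖∫ t in x.1..(x.1 + x.2), g t‖ ≤ B * |x.1 + x.2 - x.1| :=
    intervalIntegral.norm_integral_le_of_norm_le_const fun t _ => hB t
  rw [add_sub_cancel_left, abs_of_pos hx] at h1
  calc x.2⁻¹ * ‖∫ t in x.1..(x.1 + x.2), g t‖ ≤ x.2⁻¹ * (B * x.2) := by gcongr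
    _ = B := by field_simp

variable {κ : Type} [Fintype κ]

/-- Kronecker-Weyl, uniformly. -/
theorem kw (l : κ → ℝ) (hl : ∀ m : κ → ℤ, ∑ i, m i * l i = 0 → m = 0)
    (g : C(UnitAddTorus κ, ℂ)) :
    Tendsto (wav (fun t => g (lin l t))) WF (𝓝 (∫ x, g x)) := by
  have hint : ∀ (g : C(UnitAddTorus κ, ℂ)) (a b : ℝ),
      IntervalIntegrable (fun t => g (lin l t)) volume a b := fun g a b =>
    ((map_continuous g).comp (continuous_lin l)).intervalIntegrable a b
  have hintT : ∀ (g : C(UnitAddTorus κ, ℂ)), Integrable (fun x => g x) volume := fun g =>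
    (map_continuous g).integrable_of_hasCompactSupport (HasCompactSupport.of_compactSpace _)
  let S : Submodule ℂ C(UnitAddTorus κ, ℂ) :=
    { carrier := {g | Tendsto (wav (fun t => g (lin l t))) WF (𝓝 (∫ x, g x))}
      add_mem' := by
        intro a b ha hb
        have h1 := ha.add hb
        have h2 : ∫ x, (a + b) x = (∫ x, a x) + ∫ x, b x := integral_add (hintT a) (hintT b)
        show Tendsto _ _ (𝓝 (∫ x, (a + b) x))
        rw [h2]
        refine h1.congr fun T => ?_
        unfold wav
        rw [← mul_add, ← intervalIntegral.integral_add (hint a _ _) (hint b _ _)]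
        rfl
      zero_mem' := by
        show Tendsto (wav (fun _ => (0 : ℂ))) WF (𝓝 (∫ _x : UnitAddTorus κ, (0 : ℂ)))
        simp only [integral_zero]
        refine tendsto_const_nhds.congr fun T => ?_
        unfold wav; simp
      smul_mem' := by
        intro c a ha
        have h1 := ha.const_mul c
        have h2 : ∫ x, (c • a) x = c * ∫ x, a x := integral_const_mul c _
        show Tendsto _ _ (𝓝 (∫ x, (c • a) x))
        rw [h2]
        refine h1.congr fun T => ?_
        unfold wav
        rw [← mul_assoc, mul_comm c, mul_assoc, ← intervalIntegral.integral_const_mul]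
        rfl }
  have hchar : ∀ m : κ → ℤ, UnitAddTorus.mFourier m ∈ S := by
    intro m
    show Tendsto (wav (fun t => UnitAddTorus.mFourier m (lin l t))) WF
      (𝓝 (∫ x, UnitAddTorus.mFourier m x))
    rw [integral_mFourier]
    by_cases hm : m = 0
    · rw [if_pos hm]
      subst hm
      have : (fun t => UnitAddTorus.mFourier (0 : κ → ℤ) (lin l t)) = fun _ => (1 : ℂ) := by
        ext t; rw [UnitAddTorus.mFourier_zero]; rfl
      rw [this]
      refine tendsto_const_nhds.congr' (ev_of 1 fun a T hT => ?_)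
      exact (wav_const 1 (x := (a, T)) (by simp only; linarith)).symm
    · rw [if_neg hm]
      simp_rw [mFourier_lin]
      refine wav_exp _ ?_
      refine mul_ne_zero (by positivity) fun h => hm (hl m h)
  have hclosed : IsClosed (S : Set C(UnitAddTorus κ, ℂ)) := by
    rw [← isSeqClosed_iff_isClosed]
    intro u g hu hug
    show Tendsto (wav (fun t => g (lin l t))) WF (𝓝 (∫ x, g x))
    rw [Metric.tendsto_nhds]
    intro ε hε
    obtain ⟨N, hN⟩ := (Metric.tendsto_atTop.1 hug) (ε / 4) (by positivity)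
    have hn := hN N le_rfl
    have hT0 := (Metric.tendsto_nhds.1 (hu N)) (ε / 4) (by positivity)
    filter_upwards [hT0, ev_of (p := fun x => 0 < x.2) 1 fun a T hT => by
      simp only; linarith] with x h1 hTpos
    have hdiff : ∀ x, ‖g x - u N x‖ ≤ ε / 4 := by
      intro x
      have := ContinuousMap.dist_apply_le_dist (f := u N) (g := g) x
      rw [dist_comm, dist_eq_norm] at this
      exact this.trans hn.le
    have h2 : ‖wav (fun t => g (lin l t)) x - wav (fun t => u N (lin l t)) x‖ ≤ ε / 4 := by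
      have : wav (fun t => g (lin l t)) x - wav (fun t => u N (lin l t)) x =
          wav (fun t => g (lin l t) - u N (lin l t)) x := by
        unfold wav
        rw [← mul_sub, ← intervalIntegral.integral_sub (hint g _ _) (hint (u N) _ _)]
      rw [this]
      exact norm_wav_le _ _ (fun t => hdiff _) hTpos
    have h3 : ‖(∫ x, u N x) - ∫ x, g x‖ ≤ ε / 4 := by
      rw [← integral_sub (hintT _) (hintT _)]
      have := norm_integral_le_of_norm_le_const (μ := (volume : Measure (UnitAddTorus κ)))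
        (f := fun x => u N x - g x) (C := ε / 4) (Eventually.of_forall fun x => by
          rw [norm_sub_rev]; exact hdiff x)
      rwa [HB.probReal_univ', mul_one] at this
    rw [dist_eq_norm] at h1 ⊢
    calc ‖wav (fun t => g (lin l t)) x - ∫ x, g x‖ =
        ‖(wav (fun t => g (lin l t)) x - wav (fun t => u N (lin l t)) x) +
          (wav (fun t => u N (lin l t)) x - ∫ x, u N x) + ((∫ x, u N x) - ∫ x, g x)‖ := by
          congr 1; ring
      _ ≤ ε / 4 + ε / 4 + ε / 4 := by
          refine (norm_add₃_le).trans ?_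
          have h1' : ‖wav (fun t => u N (lin l t)) x - ∫ x, u N x‖ ≤ ε / 4 := h1.le
          linarith
      _ < ε := by linarith
  have htop : S = ⊤ := by
    have h1 : Submodule.span ℂ (Set.range (UnitAddTorus.mFourier (d := κ))) ≤ S := by
      rw [Submodule.span_le]
      rintro _ ⟨m, rfl⟩
      exact hchar m
    have h2 := UnitAddTorus.span_mFourier_closure_eq_top (d := κ)
    rw [eq_top_iff, ← h2]
    exact Submodule.topologicalClosure_minimal _ h1 hclosed
  have : g ∈ S := by rw [htop]; trivial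
  exact this

end Pool.Agent.R409.ED
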