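import Pool.Agent.R409.ED.Base

/-!
# The laws of the boundary function on long intervals
-/

set_option autoImplicit false

namespace Pool.Agent.R409.ED

open MeasureTheory Filter Topology
open Pool.Agent.TH339.MP
open scoped ENNReal ComplexConjugate

/-- finitely many directions -/
lemma dirs {κ κ' : ℝ} (h0 : 0 ≤ κ) (h : κ < κ') : ∃ D : Finset ℂ, (∀ w ∈ D, ‖w‖ = 1) ∧
    ∀ z : ℂ, ∃ w ∈ D, κ * ‖z‖ ≤ (κ' * w * z).re := by
  classical
  have hκ' : 0 < κ' := by linarith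
  obtain ⟨t, ht, hcov⟩ := (isCompact_sphere (0 : ℂ) 1).elim_nhds_subcover
    (fun w => {v : ℂ | κ < κ' * (conj w * v).re}) (by
      intro w hw
      have hw1 : ‖w‖ = 1 := by simpa using hw
      have ho : IsOpen {v : ℂ | κ < κ' * (conj w * v).re} :=
        isOpen_lt continuous_const (by fun_prop)
      refine ho.mem_nhds ?_
      show κ < κ' * (conj w * w).re
      rw [Complex.conj_mul', hw1]
      simpa using h)
  have hne : ∃ w, w ∈ t := by
    have h1 : (1 : ℂ) ∈ Metric.sphere (0 : ℂ) 1 := by simp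
    obtain ⟨w, hw, -⟩ := Set.mem_iUnion₂.1 (hcov h1)
    exact ⟨w, hw⟩
  refine ⟨t.image conj, ?_, fun z => ?_⟩
  · intro w hw
    obtain ⟨v, hv, rfl⟩ := Finset.mem_image.1 hw
    have : ‖v‖ = 1 := by simpa using ht v hv
    rw [RCLike.norm_conj, this]
  · by_cases hz : z = 0
    · obtain ⟨w, hw⟩ := hne
      exact ⟨conj w, Finset.mem_image_of_mem _ hw, by rw [hz]; simp⟩
    · have hz0 : 0 < ‖z‖ := norm_pos_iff.2 hz
      have h1 : z / ‖z‖ ∈ Metric.sphere (0 : ℂ) 1 := by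
        simp [hz0.ne']
      obtain ⟨w, hw, h2⟩ := Set.mem_iUnion₂.1 (hcov h1)
      refine ⟨conj w, Finset.mem_image_of_mem _ hw, ?_⟩
      have h3 : κ < κ' * (conj w * (z / ‖z‖)).re := h2
      have h4 : (κ' * conj w * z).re = (κ' * (conj w * (z / ‖z‖)).re) * ‖z‖ := by
        have e1 : κ' * conj w * z = ((κ' * ‖z‖ : ℝ) : ℂ) * (conj w * (z / ‖z‖)) := by
          have : (‖z‖ : ℂ) ≠ 0 := by exact_mod_cast hz0.ne'
          push_cast
          field_simp
        rw [e1, Complex.re_ofReal_mul]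
        ring
      rw [h4]
      exact mul_le_mul_of_nonneg_right h3.le hz0.le

/-- the mean of an exponential of the absolute value -/
theorem expn_mean {M κ : ℝ} (hM : 0 ≤ M) (h0 : 0 ≤ κ) (hκ : κ * M < 1) :
    ∃ B : ℝ, 0 ≤ B ∧ ∀ b : PP → ℂ, (∀ x, ‖b x‖ ≤ M / (x.2 + 1 : ℕ)) → ∀ a T : ℝ, 1 ≤ T →
      ∫⁻ u in Set.Icc a (a + T), ENNReal.ofReal (Real.exp (κ * ‖bl b u‖)) ≤
        ENNReal.ofReal (B * T) := by
  classical
  obtain ⟨κ', h1, h2⟩ : ∃ κ' : ℝ, κ < κ' ∧ κ' * M < 1 := by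
    refine ⟨κ + (1 - κ * M) / (2 * (M + 1)), ?_, ?_⟩
    · have : 0 < (1 - κ * M) / (2 * (M + 1)) := div_pos (by linarith) (by linarith)
      linarith
    · have h3 : (1 - κ * M) / (2 * (M + 1)) * M < 1 - κ * M := by
        rw [div_mul_eq_mul_div, div_lt_iff₀ (by linarith)]
        have : 0 < 1 - κ * M := by linarith
        nlinarith
      linarith
  obtain ⟨D, hD, hD2⟩ := dirs h0 h1
  have hκ'0 : 0 < κ' := by linarith
  have hc : ∀ w ∈ D, ‖(κ' : ℂ) * w‖ * M < 1 := by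
    intro w hw
    rw [norm_mul, hD w hw, mul_one, Complex.norm_real, Real.norm_of_nonneg hκ'0.le]
    exact h2
  have hB : ∀ w : D, ∃ B : ℝ, 0 ≤ B ∧ ∀ b : PP → ℂ,
    (∀ x, ‖b x‖ ≤ M / (x.2 + 1 : ℕ)) → ∀ a T : ℝ, 1 ≤ T →
      ∫⁻ u in Set.Icc a (a + T), ENNReal.ofReal ‖Complex.exp ((κ' : ℂ) * w * bl b u)‖ ≤
        ENNReal.ofReal (B * T) := fun w => exp_mean (hc w w.2)
  choose B hB0 hB1 using hB
  refine ⟨∑ w, B w, Finset.sum_nonneg fun w _ => hB0 w, fun b hb a T hT => ?_⟩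
  have hmeas : AEMeasurable (bl b) := (boundary hb).1
  calc ∫⁻ u in Set.Icc a (a + T), ENNReal.ofReal (Real.exp (κ * ‖bl b u‖))
      ≤ ∫⁻ u in Set.Icc a (a + T), ∑ w : D,
          ENNReal.ofReal ‖Complex.exp ((κ' : ℂ) * w * bl b u)‖ := by
        refine lintegral_mono fun u => ?_
        obtain ⟨w, hw, h3⟩ := hD2 (bl b u)
        refine le_trans ?_ (Finset.single_le_sum (f := fun w : D =>
          ENNReal.ofReal ‖Complex.exp ((κ' : ℂ) * w * bl b u)‖) (fun _ _ => zero_le)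
          (Finset.mem_univ (⟨w, hw⟩ : D)))
        rw [Complex.norm_exp]
        exact ENNReal.ofReal_le_ofReal (Real.exp_le_exp.2 h3)
    _ = ∑ w : D, ∫⁻ u in Set.Icc a (a + T),
          ENNReal.ofReal ‖Complex.exp ((κ' : ℂ) * w * bl b u)‖ := by
        refine lintegral_finsetSum' _ fun w _ => ?_
        have h1 : AEMeasurable (fun u => (κ' : ℂ) * w * bl b u) := hmeas.const_mul _
        exact ((Complex.measurable_exp.comp_aemeasurable h1).norm).ennreal_ofReal.restrict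
    _ ≤ ∑ w : D, ENNReal.ofReal (B w * T) := Finset.sum_le_sum fun w _ => hB1 w b hb a T hT
    _ = ENNReal.ofReal ((∑ w, B w) * T) := by
        rw [Finset.sum_mul, ENNReal.ofReal_sum_of_nonneg]
        intro w _
        exact mul_nonneg (hB0 w) (by linarith)

variable {b : PP → ℂ} {M : ℝ}

/-- the length of the interval -/
noncomputable def len (x : ℝ × ℝ) : ℝ := max x.2 1

lemma one_le_len (x : ℝ × ℝ) : 1 ≤ len x := le_max_right _ _

/-- the law of the boundary function on `(a, a + T]` -/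
noncomputable def lawM (b : PP → ℂ) (x : ℝ × ℝ) : Measure ℂ :=
  (ENNReal.ofReal (len x))⁻¹ • Measure.map (bl b) (volume.restrict (Set.Ioc x.1 (x.1 + len x)))

lemma lawM_prob (hb : ∀ x, ‖b x‖ ≤ M / (x.2 + 1 : ℕ)) (x : ℝ × ℝ) :
    IsProbabilityMeasure (lawM b x) := by
  constructor
  have hT := one_le_len x
  unfold lawM
  rw [Measure.smul_apply, Measure.map_apply_of_aemeasurable (boundary hb).1.restrict
    MeasurableSet.univ, Set.preimage_univ, Measure.restrict_apply_univ, Real.volume_Ioc,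
    add_sub_cancel_left, smul_eq_mul]
  have h : 0 < len x := by linarith
  exact ENNReal.inv_mul_cancel (by simp [h]) ENNReal.ofReal_ne_top

/-- the law of the boundary function on `(a, a + T]` -/
noncomputable def law (hb : ∀ x, ‖b x‖ ≤ M / (x.2 + 1 : ℕ)) (x : ℝ × ℝ) : ProbabilityMeasure ℂ :=
  ⟨lawM b x, lawM_prob hb x⟩

lemma law_lintegral (hb : ∀ x, ‖b x‖ ≤ M / (x.2 + 1 : ℕ)) (x : ℝ × ℝ) {f : ℂ → ℝ≥0∞}
    (hf : Measurable f) : ∫⁻ z, f z ∂(law hb x : Measure ℂ) =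
      (ENNReal.ofReal (len x))⁻¹ * ∫⁻ u in Set.Ioc x.1 (x.1 + len x), f (bl b u) := by
  show ∫⁻ z, f z ∂(lawM b x) = _
  unfold lawM
  rw [lintegral_smul_measure, smul_eq_mul,
    lintegral_map' hf.aemeasurable (boundary hb).1.restrict]

lemma law_integral (hb : ∀ x, ‖b x‖ ≤ M / (x.2 + 1 : ℕ)) (x : ℝ × ℝ) {E : Type*}
    [NormedAddCommGroup E] [NormedSpace ℝ E] [SecondCountableTopology E]
    {f : ℂ → E} (hf : Continuous f) : ∫ z, f z ∂(law hb x : Measure ℂ) =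
      (len x)⁻¹ • ∫ u in Set.Ioc x.1 (x.1 + len x), f (bl b u) := by
  show ∫ z, f z ∂(lawM b x) = _
  have hT := one_le_len x
  unfold lawM
  rw [integral_smul_measure, integral_map (boundary hb).1.restrict hf.aestronglyMeasurable,
    ENNReal.toReal_inv, ENNReal.toReal_ofReal (by linarith)]

lemma lint_le (hb : ∀ x, ‖b x‖ ≤ M / (x.2 + 1 : ℕ)) (x : ℝ × ℝ) {f : ℂ → ℝ≥0∞}
    (hf : Measurable f) {B : ℝ} (h : ∫⁻ u in Set.Icc x.1 (x.1 + len x), f (bl b u) ≤
      ENNReal.ofReal (B * len x)) : ∫⁻ z, f z ∂(law hb x : Measure ℂ) ≤ ENNReal.ofReal B := by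
  rw [law_lintegral hb x hf]
  have hT := one_le_len x
  have h0 : 0 < len x := by linarith
  calc (ENNReal.ofReal (len x))⁻¹ * ∫⁻ u in Set.Ioc x.1 (x.1 + len x), f (bl b u)
      ≤ (ENNReal.ofReal (len x))⁻¹ * ENNReal.ofReal (B * len x) := by
        gcongr
        exact (lintegral_mono_set Set.Ioc_subset_Icc_self).trans h
    _ = ENNReal.ofReal B := by
        rw [← ENNReal.ofReal_inv_of_pos h0, ← ENNReal.ofReal_mul (by positivity)]
        congr 1
        field_simp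

/-- the exponential moments of the laws -/
theorem law_exp (hb : ∀ x, ‖b x‖ ≤ M / (x.2 + 1 : ℕ)) {κ : ℝ} (h0 : 0 ≤ κ) (hκ : κ * M < 1) :
    ∃ B : ℝ, 0 ≤ B ∧ ∀ x : ℝ × ℝ,
      ∫⁻ z, ENNReal.ofReal (Real.exp (κ * ‖z‖)) ∂(law hb x : Measure ℂ) ≤ ENNReal.ofReal B := by
  obtain ⟨B, hB0, hB⟩ := expn_mean (M_nonneg hb) h0 hκ
  exact ⟨B, hB0, fun x => lint_le hb x (by fun_prop) (hB b hb _ _ (one_le_len x))⟩

/-- the laws are tight -/
theorem tight (hb : ∀ x, ‖b x‖ ≤ M / (x.2 + 1 : ℕ)) :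
    IsTightMeasureSet {((μ : ProbabilityMeasure ℂ) : Measure ℂ) | μ ∈ Set.range (law hb)} := by
  have hM := M_nonneg hb
  obtain ⟨κ, hκ0, hκ⟩ : ∃ κ : ℝ, 0 < κ ∧ κ * M < 1 := by
    refine ⟨1 / (M + 1), by positivity, ?_⟩
    rw [div_mul_eq_mul_div, div_lt_one (by positivity)]
    linarith
  obtain ⟨B, hB0, hB⟩ := law_exp hb hκ0.le hκ
  rw [isTightMeasureSet_iff_exists_isCompact_measure_compl_le]
  intro ε hε
  obtain ⟨e, he0, he⟩ : ∃ e : ℝ, 0 < e ∧ ENNReal.ofReal e ≤ ε := by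
    refine ⟨(min ε 1).toReal, ENNReal.toReal_pos (by simp [hε.ne']) ?_, ?_⟩
    · exact ne_top_of_le_ne_top ENNReal.one_ne_top (min_le_right _ _)
    · rw [ENNReal.ofReal_toReal (ne_top_of_le_ne_top ENNReal.one_ne_top (min_le_right _ _))]
      exact min_le_left _ _
  obtain ⟨R, hR⟩ : ∃ R : ℝ, B / e ≤ κ * R := ⟨B / e / κ, by field_simp; exact le_rfl⟩
  have hR2 : B / Real.exp (κ * R) ≤ e := by
    rw [div_le_iff₀ (Real.exp_pos _)]
    have h1 := Real.add_one_le_exp (κ * R)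
    rw [div_le_iff₀ he0] at hR
    nlinarith
  refine ⟨Metric.closedBall 0 R, isCompact_closedBall _ _, ?_⟩
  rintro _ ⟨_, ⟨x, rfl⟩, rfl⟩
  have h1 := mul_meas_ge_le_lintegral (μ := (law hb x : Measure ℂ))
    (f := fun z => ENNReal.ofReal (Real.exp (κ * ‖z‖))) (by fun_prop)
    (ENNReal.ofReal (Real.exp (κ * R)))
  have hsub : (Metric.closedBall (0 : ℂ) R)ᶜ ⊆
      {z | ENNReal.ofReal (Real.exp (κ * R)) ≤ ENNReal.ofReal (Real.exp (κ * ‖z‖))} := by
    intro z hz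
    rw [Set.mem_compl_iff, Metric.mem_closedBall, dist_zero_right, not_le] at hz
    exact ENNReal.ofReal_le_ofReal (Real.exp_le_exp.2 (mul_le_mul_of_nonneg_left hz.le hκ0.le))
  calc (law hb x : Measure ℂ) (Metric.closedBall 0 R)ᶜ
      ≤ (law hb x : Measure ℂ) {z | ENNReal.ofReal (Real.exp (κ * R)) ≤
          ENNReal.ofReal (Real.exp (κ * ‖z‖))} := measure_mono hsub
    _ ≤ ENNReal.ofReal B / ENNReal.ofReal (Real.exp (κ * R)) := by
        rw [ENNReal.le_div_iff_mul_le (Or.inl (by simp [Real.exp_pos]))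
          (Or.inl ENNReal.ofReal_ne_top), mul_comm]
        exact h1.trans (hB x)
    _ = ENNReal.ofReal (B / Real.exp (κ * R)) := (ENNReal.ofReal_div_of_pos (Real.exp_pos _)).symm
    _ ≤ ENNReal.ofReal e := ENNReal.ofReal_le_ofReal hR2
    _ ≤ ε := he

/-- approximation in the mean -/
theorem dist1 (hb : ∀ x, ‖b x‖ ≤ M / (x.2 + 1 : ℕ)) {η : ℝ} (hη : 0 < η) :
    ∃ Y0 : ℕ, ∀ Y : ℕ, Y0 ≤ Y → ∀ a T : ℝ, 1 ≤ T →
      ∫⁻ u in Set.Icc a (a + T), ENNReal.ofReal ‖bl b u - QY b Y u‖ ≤ ENNReal.ofReal (2 * η * T) := by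
  have h1 : Tendsto (fun Y : ℕ => 64800 * M ^ 2 / Real.log Y) atTop (𝓝 0) :=
    (Real.tendsto_log_atTop.comp tendsto_natCast_atTop_atTop).const_div_atTop _
  have h2 : ∀ᶠ Y : ℕ in atTop, 64800 * M ^ 2 / Real.log Y < η ^ 2 :=
    h1.eventually (gt_mem_nhds (by positivity))
  obtain ⟨Y1, hY1⟩ := eventually_atTop.1 h2
  refine ⟨max Y1 2, fun Y hY a T hT => ?_⟩
  have h3 := hY1 Y ((le_max_left _ _).trans hY)
  have h4 := dist_QY hb ((le_max_right _ _).trans hY)
  have key : ∀ t : ℝ, ∫⁻ u in Set.Icc t (t + 1), ENNReal.ofReal ‖bl b u - QY b Y u‖ ≤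
      ENNReal.ofReal η := by
    intro t
    calc ∫⁻ u in Set.Icc t (t + 1), ENNReal.ofReal ‖bl b u - QY b Y u‖
        ≤ ∫⁻ u in Set.Icc t (t + 1), (ENNReal.ofReal (η / 2) +
            ENNReal.ofReal (1 / (2 * η)) * ENNReal.ofReal (‖bl b u - QY b Y u‖ ^ 2)) := by
          refine lintegral_mono fun u => ?_
          rw [← ENNReal.ofReal_mul (by positivity), ← ENNReal.ofReal_add (by positivity) (by positivity)]
          refine ENNReal.ofReal_le_ofReal ?_
          have : η / 2 + 1 / (2 * η) * ‖bl b u - QY b Y u‖ ^ 2 - ‖bl b u - QY b Y u‖ =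
              (η - ‖bl b u - QY b Y u‖) ^ 2 / (2 * η) := by
            field_simp
            ring
          have h5 : 0 ≤ (η - ‖bl b u - QY b Y u‖) ^ 2 / (2 * η) := by positivity
          linarith
      _ = ENNReal.ofReal (η / 2) + ENNReal.ofReal (1 / (2 * η)) *
            ∫⁻ u in Set.Icc t (t + 1), ENNReal.ofReal (‖bl b u - QY b Y u‖ ^ 2) := by
          rw [lintegral_add_left measurable_const, lintegral_const_mul' _ _ ENNReal.ofReal_ne_top,
            setLIntegral_const, Real.volume_Icc, add_sub_cancel_left]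
          simp
      _ ≤ ENNReal.ofReal (η / 2) + ENNReal.ofReal (1 / (2 * η)) * ENNReal.ofReal (η ^ 2) := by
          gcongr
          exact (h4 t).trans (ENNReal.ofReal_le_ofReal h3.le)
      _ = ENNReal.ofReal η := by
          rw [← ENNReal.ofReal_mul (by positivity), ← ENNReal.ofReal_add (by positivity) (by positivity)]
          congr 1
          field_simp
          ring
  have h5 := cover' _ one_pos hη.le key (a := a) hT
  refine h5.trans (le_of_eq ?_)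
  congr 1
  ring

end Pool.Agent.R409.ED
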