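import Pool.Agent.R409.ED.Ui
import Pool.Agent.R409.EV.Temp

/-!
# The Euler factors of varieties on the edge
-/

set_option autoImplicit false

namespace Pool.Agent.R409.ED

open MeasureTheory Filter Topology NumberField IsDedekindDomain
open Pool.Agent.TH339.MP
open Pool.Agent.TH958.BV (edgePoint)
open Pool.Agent.R409.EV (nal bT bT_bound norm_nal nal_cpow edge_sub)
open HB (lin continuous_lin)
open scoped ENNReal ComplexConjugate

variable {K : Type} [Field K] [NumberField K] {i N : ℕ}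
  {α : HeightOneSpectrum (𝓞 K) → Fin N → ℂ}

/-- the logarithm of the Euler factor at the rational prime `p` -/
noncomputable def eulerLog (α : HeightOneSpectrum (𝓞 K) → Fin N → ℂ) (p : ℕ) (s : ℂ) : ℂ :=
  ∑ᶠ v ∈ {v : HeightOneSpectrum (𝓞 K) | (p : 𝓞 K) ∈ v.asIdeal},
    ∑ j, -Complex.log (1 - α v j * (Ideal.absNorm v.asIdeal : ℂ) ^ (-s))

/-- the mean over a period, on the edge, of `L_p ^ c₁ * conj L_p ^ c₂` -/
noncomputable def periodMean (i : ℕ) (α : HeightOneSpectrum (𝓞 K) → Fin N → ℂ) (c₁ c₂ : ℂ)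
    (p : ℕ) : ℂ :=
  (Real.log p / (2 * Real.pi) : ℝ) * ∫ τ in (0 : ℝ)..(2 * Real.pi / Real.log p),
    Complex.exp (c₁ * eulerLog α p (edgePoint i τ) + c₂ * conj (eulerLog α p (edgePoint i τ)))

lemma mem_iff (p : Nat.Primes) (v : HeightOneSpectrum (𝓞 K)) :
    ((p : ℕ) : 𝓞 K) ∈ v.asIdeal ↔ v ∈ (Sp p : Finset (HeightOneSpectrum (𝓞 K))) := by
  rw [mem_Sp]
  constructor
  · intro h
    by_contra hne
    have hco : Nat.Coprime (pr v : ℕ) (p : ℕ) :=
      (Nat.coprime_primes (pr v).2 p.2).2 fun h => hne (Subtype.ext h)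
    have h1 : IsCoprime (((pr v : ℕ) : 𝓞 K)) (((p : ℕ) : 𝓞 K)) := by
      have := (Nat.isCoprime_iff_coprime.2 hco).map (Int.castRingHom (𝓞 K))
      simpa using this
    obtain ⟨a, c, hac⟩ := h1
    refine v.isPrime.ne_top ((Ideal.eq_top_iff_one _).2 ?_)
    rw [← hac]
    exact Ideal.add_mem _ (Ideal.mul_mem_left _ _ (pr_mem v)) (Ideal.mul_mem_left _ _ h)
  · rintro rfl
    exact pr_mem v

lemma eulerLog_eq (p : Nat.Primes) (τ : ℝ) :
    eulerLog α p (edgePoint i τ) = ∑ v ∈ Sp p, lv (nal i α) v (1 + τ * Complex.I) := by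
  unfold eulerLog
  have hset : {v : HeightOneSpectrum (𝓞 K) | ((p : ℕ) : 𝓞 K) ∈ v.asIdeal} =
      ↑(Sp p : Finset (HeightOneSpectrum (𝓞 K))) := by
    ext v
    exact mem_iff p v
  rw [hset, finsum_mem_coe_finset]
  refine Finset.sum_congr rfl fun v _ => ?_
  unfold lv
  refine Finset.sum_congr rfl fun j _ => ?_
  rw [nal_cpow]
  have h1 : (1 + (τ : ℂ) * Complex.I + (i : ℂ) / 2) = edgePoint i τ := by
    rw [← edge_sub (i := i)]
    ring
  rw [h1]

lemma hl_at (h : ∀ v j, ‖α v j‖ ≤ (Ideal.absNorm v.asIdeal : ℝ) ^ ((i : ℝ) / 2))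
    (p : Nat.Primes) (τ : ℝ) :
    hl (bT i α) p ((-(Real.log (p : ℕ) / (2 * Real.pi)) * τ : ℝ) : UnitAddCircle) =
      ∑ v ∈ Sp p, lv (nal i α) v (1 + τ * Complex.I) := by
  have h1 := hasSum_fiber (norm_nal h) p (s := 1 + τ * Complex.I) (by simp)
  rw [← h1.tsum_eq]
  unfold hl
  refine tsum_congr fun k => ?_
  have h2 := tm_eq (bT i α) 1 τ (p, k)
  rw [Complex.ofReal_one] at h2
  show _ = tm (bT i α) (1 + τ * Complex.I) (p, k)
  rw [h2]
  congr 1
  have h3 := fourier_lin (p : ℕ) τ ⟨p, le_rfl⟩ k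
  exact h3

lemma hl_eulerLog (h : ∀ v j, ‖α v j‖ ≤ (Ideal.absNorm v.asIdeal : ℝ) ^ ((i : ℝ) / 2))
    (p : Nat.Primes) (τ : ℝ) :
    hl (bT i α) p ((-(Real.log (p : ℕ) / (2 * Real.pi)) * τ : ℝ) : UnitAddCircle) =
      eulerLog α p (edgePoint i τ) := by
  rw [hl_at h, eulerLog_eq]

theorem pmean_eq (h : ∀ v j, ‖α v j‖ ≤ (Ideal.absNorm v.asIdeal : ℝ) ^ ((i : ℝ) / 2))
    (c₁ c₂ : ℂ) (p : Nat.Primes) : pmean (bT i α) c₁ c₂ p = periodMean i α c₁ c₂ p := by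
  have hlog : 0 < Real.log (p : ℕ) := Real.log_pos (by exact_mod_cast p.2.one_lt)
  set l : ℝ := Real.log (p : ℕ) / (2 * Real.pi) with hl'
  have hl0 : 0 < l := by positivity
  unfold pmean periodMean
  rw [← UnitAddCircle.intervalIntegral_preimage (-1 : ℝ)]
  set g : ℝ → ℂ := fun a : ℝ => EE c₁ c₂ (hl (bT i α) p (a : UnitAddCircle)) with hg
  have h1 : (∫ τ in (0 : ℝ)..(2 * Real.pi / Real.log (p : ℕ)),
      Complex.exp (c₁ * eulerLog α p (edgePoint i τ) +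
      c₂ * conj (eulerLog α p (edgePoint i τ)))) =
      ∫ τ in (0 : ℝ)..(2 * Real.pi / Real.log (p : ℕ)), g (-l * τ) := by
    refine intervalIntegral.integral_congr fun τ _ => ?_
    simp only [hg]
    rw [hl', hl_eulerLog h]
    rfl
  rw [h1, intervalIntegral.integral_comp_mul_left g (neg_ne_zero.2 hl0.ne')]
  have h2 : -l * (2 * Real.pi / Real.log (p : ℕ)) = -1 := by
    rw [hl']
    field_simp
  rw [h2, mul_zero, intervalIntegral.integral_symm, neg_add_cancel, Complex.real_smul]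
  have h3 : (l : ℂ) ≠ 0 := by exact_mod_cast hl0.ne'
  show -(∫ a in (0 : ℝ)..(-1), g a) = (l : ℂ) * (((-l)⁻¹ : ℝ) * ∫ a in (0 : ℝ)..(-1), g a)
  generalize (∫ a in (0 : ℝ)..(-1), g a) = G
  push_cast
  field_simp

lemma prod_PY (f : ℕ → ℂ) (Y : ℕ) :
    ∏ p : PY Y, f (p.1 : ℕ) = ∏ p ∈ (Finset.range (Y + 1)).filter Nat.Prime, f p := by
  refine Finset.prod_bij (fun p _ => (p.1 : ℕ)) ?_ ?_ ?_ ?_
  · intro p _
    rw [Finset.mem_filter, Finset.mem_range]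
    exact ⟨Nat.lt_succ_of_le p.2, p.1.2⟩
  · intro p _ q _ h
    exact Subtype.ext (Subtype.ext h)
  · intro p hp
    rw [Finset.mem_filter, Finset.mem_range] at hp
    exact ⟨⟨⟨p, hp.2⟩, Nat.lt_succ_iff.1 hp.1⟩, Finset.mem_univ _, rfl⟩
  · intro p _
    rfl

end Pool.Agent.R409.ED
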