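import Pool.Agent.R409.ED.Tor

/-!
# Test functions of exponential growth
-/

set_option autoImplicit false

namespace Pool.Agent.R409.ED

open MeasureTheory Filter Topology
open Pool.Agent.TH339.MP
open HB (lin continuous_lin)
open scoped ENNReal ComplexConjugate BoundedContinuousFunction

/-- the exponential moment of order `κ` is at most `K` -/
def EM (κ K : ℝ) (ν : ProbabilityMeasure ℂ) : Prop :=
  ∫⁻ z, ENNReal.ofReal (Real.exp (κ * ‖z‖)) ∂(ν : Measure ℂ) ≤ ENNReal.ofReal K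

/-- cut-off -/
noncomputable def chi (R : ℝ) (z : ℂ) : ℝ := max 0 (min 1 (R + 1 - ‖z‖))

lemma continuous_chi (R : ℝ) : Continuous (chi R) := by
  unfold chi
  fun_prop

lemma chi_nonneg (R : ℝ) (z : ℂ) : 0 ≤ chi R z := le_max_left _ _

lemma chi_le (R : ℝ) (z : ℂ) : chi R z ≤ 1 := max_le zero_le_one (min_le_left _ _)

lemma chi_one {R : ℝ} {z : ℂ} (h : ‖z‖ ≤ R) : chi R z = 1 := by
  unfold chi
  rw [min_eq_left (by linarith)]
  norm_num

lemma chi_zero {R : ℝ} {z : ℂ} (h : R + 1 ≤ ‖z‖) : chi R z = 0 := by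
  unfold chi
  exact max_eq_left ((min_le_right _ _).trans (by linarith))

section
variable {κ κ' K C : ℝ} {Φ : ℂ → ℂ}

lemma EM.integrable {ν : ProbabilityMeasure ℂ} (h : EM κ K ν) :
    Integrable (fun z : ℂ => Real.exp (κ * ‖z‖)) (ν : Measure ℂ) := by
  refine ⟨(by fun_prop : Continuous fun z : ℂ => Real.exp (κ * ‖z‖)).aestronglyMeasurable, ?_⟩
  rw [hasFiniteIntegral_iff_norm]
  refine lt_of_le_of_lt (le_of_eq ?_) (lt_of_le_of_lt h ENNReal.ofReal_lt_top)
  refine lintegral_congr fun z => ?_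
  rw [Real.norm_of_nonneg (Real.exp_pos _).le]

lemma EM.le {ν : ProbabilityMeasure ℂ} (h : EM κ K ν) (hK : 0 ≤ K) :
    ∫ z, Real.exp (κ * ‖z‖) ∂(ν : Measure ℂ) ≤ K := by
  have h1 := ofReal_integral_eq_lintegral_ofReal h.integrable
    (Eventually.of_forall fun z => (Real.exp_pos _).le)
  have h2 : ENNReal.ofReal (∫ z, Real.exp (κ * ‖z‖) ∂(ν : Measure ℂ)) ≤ ENNReal.ofReal K := by
    rw [h1]
    exact h
  exact (ENNReal.ofReal_le_ofReal_iff hK).1 h2

lemma growth_integrable {ν : ProbabilityMeasure ℂ} (h : EM κ' K ν) (hκ : κ ≤ κ')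
    (hΦ : Continuous Φ) (hC : ∀ z, ‖Φ z‖ ≤ C * Real.exp (κ * ‖z‖)) : Integrable Φ (ν : Measure ℂ) := by
  refine Integrable.mono' (h.integrable.const_mul |C|) hΦ.aestronglyMeasurable
    (Eventually.of_forall fun z => (hC z).trans ?_)
  have h1 : Real.exp (κ * ‖z‖) ≤ Real.exp (κ' * ‖z‖) :=
    Real.exp_le_exp.2 (mul_le_mul_of_nonneg_right hκ (norm_nonneg z))
  calc C * Real.exp (κ * ‖z‖) ≤ |C| * Real.exp (κ * ‖z‖) :=
        mul_le_mul_of_nonneg_right (le_abs_self C) (Real.exp_pos _).le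
    _ ≤ |C| * Real.exp (κ' * ‖z‖) := mul_le_mul_of_nonneg_left h1 (abs_nonneg C)

/-- the truncated function -/
noncomputable def cut (Φ : ℂ → ℂ) (R : ℝ) (z : ℂ) : ℂ := (chi R z : ℂ) * Φ z

lemma continuous_cut (hΦ : Continuous Φ) (R : ℝ) : Continuous (cut Φ R) :=
  (Complex.continuous_ofReal.comp (continuous_chi R)).mul hΦ

lemma norm_cut (h0 : 0 ≤ κ) (hC0 : 0 ≤ C) (hC : ∀ z, ‖Φ z‖ ≤ C * Real.exp (κ * ‖z‖)) (R : ℝ) (z : ℂ) :
    ‖cut Φ R z‖ ≤ C * Real.exp (κ * (R + 1)) := by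
  unfold cut
  rw [norm_mul, Complex.norm_real, Real.norm_of_nonneg (chi_nonneg R z)]
  rcases le_or_gt (R + 1) ‖z‖ with h | h
  · rw [chi_zero h, zero_mul]
    positivity
  · calc chi R z * ‖Φ z‖ ≤ 1 * (C * Real.exp (κ * (R + 1))) := by
          refine mul_le_mul (chi_le R z) ((hC z).trans ?_) (norm_nonneg _) zero_le_one
          gcongr
      _ = _ := one_mul _

lemma norm_sub_cut (hκ : κ ≤ κ') (hC0 : 0 ≤ C) (hC : ∀ z, ‖Φ z‖ ≤ C * Real.exp (κ * ‖z‖))
    (R : ℝ) (z : ℂ) :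
    ‖Φ z - cut Φ R z‖ ≤ C * Real.exp (-((κ' - κ) * R)) * Real.exp (κ' * ‖z‖) := by
  have h1 : Φ z - cut Φ R z = ((1 - chi R z : ℝ) : ℂ) * Φ z := by
    unfold cut
    push_cast
    ring
  rw [h1, norm_mul, Complex.norm_real, Real.norm_of_nonneg (by linarith [chi_le R z])]
  rcases le_or_gt ‖z‖ R with h | h
  · rw [chi_one h, sub_self, zero_mul]
    positivity
  · calc (1 - chi R z) * ‖Φ z‖ ≤ 1 * (C * Real.exp (κ * ‖z‖)) := by
          refine mul_le_mul (by linarith [chi_nonneg R z]) (hC z) (norm_nonneg _) zero_le_one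
      _ = C * Real.exp (κ * ‖z‖) := one_mul _
      _ ≤ C * (Real.exp (-((κ' - κ) * R)) * Real.exp (κ' * ‖z‖)) := by
          rw [← Real.exp_add]
          gcongr
          nlinarith [mul_nonneg (sub_nonneg.2 hκ) (sub_nonneg.2 h.le)]
      _ = _ := by ring

lemma integral_sub_cut {ν : ProbabilityMeasure ℂ} (h : EM κ' K ν) (hK : 0 ≤ K) (h0 : 0 ≤ κ)
    (hκ : κ ≤ κ') (hC0 : 0 ≤ C) (hΦ : Continuous Φ) (hC : ∀ z, ‖Φ z‖ ≤ C * Real.exp (κ * ‖z‖)) (R : ℝ) :
    ‖(∫ z, Φ z ∂(ν : Measure ℂ)) - ∫ z, cut Φ R z ∂(ν : Measure ℂ)‖ ≤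
      C * Real.exp (-((κ' - κ) * R)) * K := by
  have hi1 := growth_integrable h hκ hΦ hC
  have hi2 : Integrable (cut Φ R) (ν : Measure ℂ) :=
    Integrable.mono' (integrable_const (C * Real.exp (κ * (R + 1))))
      (continuous_cut hΦ R).aestronglyMeasurable (Eventually.of_forall fun z => norm_cut h0 hC0 hC R z)
  rw [← integral_sub hi1 hi2]
  refine (norm_integral_le_of_norm_le (h.integrable.const_mul (C * Real.exp (-((κ' - κ) * R))))
    (Eventually.of_forall fun z => norm_sub_cut hκ hC0 hC R z)).trans ?_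
  rw [integral_const_mul]
  exact mul_le_mul_of_nonneg_left (h.le hK) (by positivity)

/-- the exponential moment of the limit -/
lemma EM.limit {ι : Type*} {F : Filter ι} [F.NeBot] {μs : ι → ProbabilityMeasure ℂ}
    {μ : ProbabilityMeasure ℂ} (h : Tendsto μs F (𝓝 μ)) (hE : ∀ i, EM κ K (μs i)) :
    EM κ K μ := by
  rw [ProbabilityMeasure.tendsto_iff_forall_lintegral_tendsto] at h
  set f : ℕ → ℂ →ᵇ NNReal := fun n => BoundedContinuousFunction.mkOfBound
    ⟨fun z => min (Real.toNNReal (Real.exp (κ * ‖z‖))) n, by fun_prop⟩ n (fun x y => by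
      rw [NNReal.dist_eq]
      simp only [ContinuousMap.coe_mk]
      rw [abs_sub_le_iff]
      constructor
      · have h1 : ((min (Real.toNNReal (Real.exp (κ * ‖x‖))) n : NNReal) : ℝ) ≤ n := by
          exact_mod_cast min_le_right _ _
        have h2 : (0 : ℝ) ≤ ((min (Real.toNNReal (Real.exp (κ * ‖y‖))) n : NNReal) : ℝ) :=
          NNReal.coe_nonneg _
        linarith
      · have h1 : ((min (Real.toNNReal (Real.exp (κ * ‖y‖))) n : NNReal) : ℝ) ≤ n := by
          exact_mod_cast min_le_right _ _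
        have h2 : (0 : ℝ) ≤ ((min (Real.toNNReal (Real.exp (κ * ‖x‖))) n : NNReal) : ℝ) :=
          NNReal.coe_nonneg _
        linarith) with hf
  have hfz : ∀ n z, f n z = min (Real.toNNReal (Real.exp (κ * ‖z‖))) n := fun n z => rfl
  have h1 : ∀ n, ∫⁻ z, f n z ∂(μ : Measure ℂ) ≤ ENNReal.ofReal K := by
    intro n
    refine le_of_tendsto (h (f n)) (Eventually.of_forall fun i => le_trans ?_ (hE i))
    refine lintegral_mono fun z => ?_
    rw [hfz]
    show ((min (Real.toNNReal (Real.exp (κ * ‖z‖))) (n : NNReal) : NNReal) : ℝ≥0∞) ≤ _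
    exact ENNReal.coe_le_coe.2 (min_le_left _ _)
  have h2 : ∀ z : ℂ, ENNReal.ofReal (Real.exp (κ * ‖z‖)) = liminf (fun n => (f n z : ℝ≥0∞)) atTop := by
    intro z
    have h3 : Tendsto (fun n => (f n z : ℝ≥0∞)) atTop (𝓝 (ENNReal.ofReal (Real.exp (κ * ‖z‖)))) := by
      refine tendsto_const_nhds.congr' ?_
      obtain ⟨m, hm⟩ := exists_nat_ge (Real.toNNReal (Real.exp (κ * ‖z‖)))
      filter_upwards [eventually_ge_atTop m] with n hn
      rw [hfz, min_eq_left (hm.trans (by exact_mod_cast hn))]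
      rfl
    exact h3.liminf_eq.symm
  unfold EM
  simp_rw [h2]
  refine (lintegral_liminf_le fun n => ?_).trans
    (liminf_le_of_frequently_le' (Eventually.frequently (Eventually.of_forall h1)))
  exact (ENNReal.continuous_coe.comp (f n).continuous).measurable

/-- **Convergence of the integrals of functions of exponential growth.** -/
theorem growth_tendsto {ι : Type*} {F : Filter ι} [F.NeBot] {μs : ι → ProbabilityMeasure ℂ}
    {μ : ProbabilityMeasure ℂ} (h : Tendsto μs F (𝓝 μ)) (hE : ∀ i, EM κ' K (μs i)) (hK : 0 ≤ K)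
    (h0 : 0 ≤ κ) (hκ : κ < κ') (hΦ : Continuous Φ) (hC : ∀ z, ‖Φ z‖ ≤ C * Real.exp (κ * ‖z‖)) :
    Integrable Φ (μ : Measure ℂ) ∧
      Tendsto (fun i => ∫ z, Φ z ∂(μs i : Measure ℂ)) F (𝓝 (∫ z, Φ z ∂(μ : Measure ℂ))) := by
  have hC0 : 0 ≤ C := by
    have := (norm_nonneg _).trans (hC 0)
    rw [norm_zero, mul_zero, Real.exp_zero, mul_one] at this
    exact this
  have hEμ : EM κ' K μ := EM.limit h hE
  refine ⟨growth_integrable hEμ hκ.le hΦ hC, ?_⟩
  rw [Metric.tendsto_nhds]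
  intro ε hε
  obtain ⟨R, hR⟩ : ∃ R : ℝ, C * Real.exp (-((κ' - κ) * R)) * K ≤ ε / 4 := by
    have h1 : Tendsto (fun R : ℝ => C * Real.exp (-((κ' - κ) * R)) * K) atTop (𝓝 0) := by
      have h2 : Tendsto (fun R : ℝ => (κ' - κ) * R) atTop atTop :=
        tendsto_id.const_mul_atTop (sub_pos.2 hκ)
      have h3 := (Real.tendsto_exp_neg_atTop_nhds_zero.comp h2).const_mul C
      have h4 := h3.mul_const K
      simpa using h4
    exact (h1.eventually (eventually_le_nhds (by positivity : (0 : ℝ) < ε / 4))).exists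
  have h1 := (ProbabilityMeasure.tendsto_iff_forall_integral_rclike_tendsto ℂ).1 h
    (BoundedContinuousFunction.ofNormedAddCommGroup (cut Φ R) (continuous_cut hΦ R) _
      (norm_cut h0 hC0 hC R))
  have h2 := Metric.tendsto_nhds.1 h1 (ε / 4) (by positivity)
  filter_upwards [h2] with i hi
  have h3 := integral_sub_cut (hE i) hK h0 hκ.le hC0 hΦ hC R
  have h4 := integral_sub_cut hEμ hK h0 hκ.le hC0 hΦ hC R
  rw [dist_eq_norm] at hi ⊢
  simp only [BoundedContinuousFunction.coe_ofNormedAddCommGroup] at hi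
  calc ‖(∫ z, Φ z ∂(μs i : Measure ℂ)) - ∫ z, Φ z ∂(μ : Measure ℂ)‖ =
      ‖((∫ z, Φ z ∂(μs i : Measure ℂ)) - ∫ z, cut Φ R z ∂(μs i : Measure ℂ)) +
        ((∫ z, cut Φ R z ∂(μs i : Measure ℂ)) - ∫ z, cut Φ R z ∂(μ : Measure ℂ)) -
        ((∫ z, Φ z ∂(μ : Measure ℂ)) - ∫ z, cut Φ R z ∂(μ : Measure ℂ))‖ := by
        congr 1; ring
    _ ≤ ε / 4 + ε / 4 + ε / 4 := by
        refine (norm_sub_le _ _).trans (add_le_add ((norm_add_le _ _).trans (add_le_add ?_ hi.le)) ?_)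
        · exact h3.trans hR
        · exact h4.trans hR
    _ < ε := by linarith

end

variable {b : PP → ℂ} {M : ℝ}

lemma exists_between' {κ : ℝ} (hM : 0 ≤ M) (hκ : κ * M < 1) : ∃ κ' : ℝ, κ < κ' ∧ κ' * M < 1 := by
  refine ⟨κ + (1 - κ * M) / (2 * (M + 1)), ?_, ?_⟩
  · have : 0 < (1 - κ * M) / (2 * (M + 1)) := div_pos (by linarith) (by linarith)
    linarith
  · have h3 : (1 - κ * M) / (2 * (M + 1)) * M < 1 - κ * M := by
      rw [div_mul_eq_mul_div, div_lt_iff₀ (by linarith)]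
      have : 0 < 1 - κ * M := by linarith
      nlinarith
    linarith

/-- the exponential moments of the truncated random Euler products -/
theorem muY_exp (hb : ∀ x, ‖b x‖ ≤ M / (x.2 + 1 : ℕ)) {κ : ℝ} (h0 : 0 ≤ κ) (hκ : κ * M < 1) :
    ∃ B : ℝ, 0 ≤ B ∧ ∀ Y, EM κ B (muY hb Y) := by
  obtain ⟨B, hB0, hB⟩ := expn_mean (M_nonneg hb) h0 hκ
  refine ⟨B, hB0, fun Y => ?_⟩
  have hφ : Continuous fun z : ℂ => Real.exp (κ * ‖z‖) := by fun_prop
  have h1 := rav_tendsto hb Y hφ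
  have h2 : ∫ z, Real.exp (κ * ‖z‖) ∂(muY hb Y : Measure ℂ) ≤ B := by
    refine le_of_tendsto h1 (ev_of 1 fun a T hT => ?_)
    have hT0 : 0 < T := by linarith
    unfold rav
    simp only
    rw [intervalIntegral.integral_of_le (by linarith)]
    have h3 : IntegrableOn (fun t => Real.exp (κ * ‖QY b Y t‖)) (Set.Ioc a (a + T)) :=
      ((hφ.comp (continuous_QY hb Y)).continuousOn.integrableOn_compact
        isCompact_Icc).mono_set Set.Ioc_subset_Icc_self
    have h4 := ofReal_integral_eq_lintegral_ofReal h3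
      (Eventually.of_forall fun z => (Real.exp_pos _).le)
    have h5 : ∫⁻ t in Set.Ioc a (a + T), ENNReal.ofReal (Real.exp (κ * ‖QY b Y t‖)) ≤
        ENNReal.ofReal (B * T) := by
      refine le_trans (le_of_eq ?_) ((lintegral_mono_set Set.Ioc_subset_Icc_self).trans
        (hB _ (bY_bound hb Y) a T hT))
      refine lintegral_congr_ae ?_
      filter_upwards [ae_restrict_of_ae (bl_bY hb Y)] with u hu
      rw [hu]
    rw [← h4, ENNReal.ofReal_le_ofReal_iff (by positivity)] at h5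
    rw [inv_mul_le_iff₀ hT0]
    linarith
  have hi : Integrable (fun z : ℂ => Real.exp (κ * ‖z‖)) (muY hb Y : Measure ℂ) := by
    show Integrable _ (Measure.map (SY b Y) volume)
    rw [integrable_map_measure hφ.aestronglyMeasurable (continuous_SY hb Y).aemeasurable]
    exact (hφ.comp (continuous_SY hb Y)).integrable_of_hasCompactSupport
      (HasCompactSupport.of_compactSpace _)
  unfold EM
  rw [← ofReal_integral_eq_lintegral_ofReal hi (Eventually.of_forall fun z => (Real.exp_pos _).le)]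
  exact ENNReal.ofReal_le_ofReal h2

/-- the exponential function in `z` and its conjugate -/
noncomputable def EE (c₁ c₂ z : ℂ) : ℂ := Complex.exp (c₁ * z + c₂ * conj z)

lemma continuous_EE (c₁ c₂ : ℂ) : Continuous (EE c₁ c₂) := by
  unfold EE
  fun_prop

lemma norm_EE (c₁ c₂ z : ℂ) : ‖EE c₁ c₂ z‖ ≤ 1 * Real.exp (‖c₁ + conj c₂‖ * ‖z‖) := by
  unfold EE
  rw [Complex.norm_exp, one_mul]
  refine Real.exp_le_exp.2 ?_
  have h1 : (c₁ * z + c₂ * conj z).re = ((c₁ + conj c₂) * z).re := by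
    simp only [Complex.add_re, Complex.mul_re, Complex.conj_re, Complex.conj_im, Complex.add_im]
    ring
  rw [h1, ← norm_mul]
  exact Complex.re_le_norm _

/-- the mean of the exponential over the unit circle, for the Euler factor at `p` -/
noncomputable def pmean (b : PP → ℂ) (c₁ c₂ : ℂ) (p : Nat.Primes) : ℂ :=
  ∫ θ : UnitAddCircle, EE c₁ c₂ (hl b p θ)

lemma EE_add (c₁ c₂ : ℂ) {ι : Type*} (s : Finset ι) (f : ι → ℂ) :
    EE c₁ c₂ (∑ i ∈ s, f i) = ∏ i ∈ s, EE c₁ c₂ (f i) := by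
  unfold EE
  rw [← Complex.exp_sum]
  congr 1
  rw [map_sum, Finset.mul_sum, Finset.mul_sum, ← Finset.sum_add_distrib]

lemma muY_EE (hb : ∀ x, ‖b x‖ ≤ M / (x.2 + 1 : ℕ)) (c₁ c₂ : ℂ) (Y : ℕ) :
    ∫ z, EE c₁ c₂ z ∂(muY hb Y : Measure ℂ) = ∏ p : PY Y, pmean b c₁ c₂ p.1 := by
  rw [muY_integral hb Y (continuous_EE c₁ c₂)]
  unfold SY pmean
  simp_rw [EE_add]
  exact integral_fintype_prod_volume_eq_prod (fun (p : PY Y) (θ : UnitAddCircle) =>
    EE c₁ c₂ (hl b p.1 θ))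

/-- **The limit law, with exponential moments and the product formula.** -/
theorem main (hb : ∀ x, ‖b x‖ ≤ M / (x.2 + 1 : ℕ)) : ∃ μ : ProbabilityMeasure ℂ,
    (∀ κ C : ℝ, 0 ≤ κ → κ * M < 1 → ∀ Φ : ℂ → ℂ, Continuous Φ →
      (∀ z, ‖Φ z‖ ≤ C * Real.exp (κ * ‖z‖)) → Integrable Φ (μ : Measure ℂ) ∧
        ∀ ε : ℝ, 0 < ε → ∃ T0 : ℝ, 0 < T0 ∧ ∀ a T : ℝ, T0 ≤ T →
          IntervalIntegrable (fun t => Φ (bl b t)) volume a (a + T) ∧
          ‖(T : ℂ)⁻¹ * (∫ t in a..(a + T), Φ (bl b t)) - ∫ z, Φ z ∂(μ : Measure ℂ)‖ ≤ ε) ∧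
    ∀ c₁ c₂ : ℂ, ‖c₁ + conj c₂‖ * M < 1 → Tendsto (fun Y : ℕ => ∏ p : PY Y, pmean b c₁ c₂ p.1) atTop
      (𝓝 (∫ z, Complex.exp (c₁ * z + c₂ * conj z) ∂(μ : Measure ℂ))) := by
  have hM := M_nonneg hb
  obtain ⟨μ, h1, h2⟩ := exists_lim hb
  refine ⟨μ, fun κ C h0 hκ Φ hΦ hC => ?_, fun c₁ c₂ hc => ?_⟩
  · obtain ⟨κ', hκ1, hκ2⟩ := exists_between' hM hκ
    obtain ⟨B, hB0, hB⟩ := law_exp hb (h0.trans hκ1.le) hκ2
    obtain ⟨h3, h4⟩ := growth_tendsto h1 hB hB0 h0 hκ1 hΦ hC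
    refine ⟨h3, fun ε hε => ?_⟩
    obtain ⟨T0, hT0⟩ := of_ev (Metric.tendsto_nhds.1 h4 ε hε)
    refine ⟨max T0 1, lt_of_lt_of_le one_pos (le_max_right _ _), fun a T hT => ?_⟩
    have hT1 : 1 ≤ T := (le_max_right _ _).trans hT
    have hlen : len (a, T) = T := max_eq_left hT1
    have hint : IntegrableOn (fun t => Φ (bl b t)) (Set.Ioc a (a + T)) := by
      have h5 : Integrable Φ (law hb (a, T) : Measure ℂ) :=
        growth_integrable (hB (a, T)) hκ1.le hΦ hC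
      have h6 : Integrable Φ (lawM b (a, T)) := h5
      unfold lawM at h6
      rw [integrable_smul_measure (by simp) (by
        simp only [ne_eq, ENNReal.inv_eq_top, ENNReal.ofReal_eq_zero, not_le]
        linarith [one_le_len (a, T)]), integrable_map_measure hΦ.aestronglyMeasurable
        (boundary hb).1.restrict, hlen] at h6
      exact h6
    refine ⟨(intervalIntegrable_iff_integrableOn_Ioc_of_le (by linarith)).2 hint, ?_⟩
    have h5 := hT0 a T ((le_max_left _ _).trans hT)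
    rw [dist_eq_norm, law_integral hb _ hΦ, hlen] at h5
    rw [intervalIntegral.integral_of_le (by linarith)]
    refine (le_of_eq ?_).trans h5.le
    congr 2
    rw [Complex.real_smul, Complex.ofReal_inv]
  · obtain ⟨κ', hκ1, hκ2⟩ := exists_between' hM hc
    obtain ⟨B, hB0, hB⟩ := muY_exp hb ((norm_nonneg _).trans hκ1.le) hκ2
    obtain ⟨-, h4⟩ := growth_tendsto h2 hB hB0 (norm_nonneg _) hκ1 (continuous_EE c₁ c₂)
      (norm_EE c₁ c₂)
    simp only [muY_EE] at h4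
    exact h4

end Pool.Agent.R409.ED
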